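import Pool.Agent.Lib.MP_10cfb2_gt.Defs

/-!
# Dimension theory of subspaces of a metric space, part 1

`ZD A` says that the subspace `A` has large inductive dimension at most `0`; `DD k A` says that
`A` is a union of `k` such subspaces (given by a colouring). Contents: partitions avoiding a
zero-dimensional set, the countable and the locally finite sum theorem, and the theorem that a
space with a sigma-locally finite base of clopen sets has large inductive dimension at most `0`.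
-/

namespace Pool.Agent.Lib.MP_10cfb2_gt
namespace CD

open Set Topology Filter

variable {X : Type} [MetricSpace X]

/-- `B` is a relatively closed subset of `A`. -/
def RC (A B : Set X) : Prop := ∃ E : Set X, IsClosed E ∧ B = E ∩ A

/-- The subspace `A` has large inductive dimension at most `0`. -/
def ZD (A : Set X) : Prop :=
  ∀ C D : Set X, IsClosed C → IsClosed D → (∀ x ∈ A, x ∈ C → x ∉ D) →
    ∃ P Q : Set X, IsOpen P ∧ IsOpen Q ∧ (∀ x ∈ A, x ∈ P ∨ x ∈ Q) ∧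
      (∀ x ∈ A, x ∈ P → x ∉ Q) ∧ (∀ x ∈ A, x ∈ C → x ∈ P) ∧ (∀ x ∈ A, x ∈ D → x ∈ Q)

/-- `A` is a union of `k` subspaces of dimension at most `0`. -/
def DD (k : ℕ) (A : Set X) : Prop :=
  ∃ f : X → ℕ, (∀ x ∈ A, f x < k) ∧ ∀ j, ZD {x | x ∈ A ∧ f x = j}

theorem RC.subset {A B : Set X} (h : RC A B) : B ⊆ A := by
  obtain ⟨E, _, rfl⟩ := h
  exact inter_subset_right

theorem RC.mem_of_closure {A B : Set X} (h : RC A B) {x : X} (hx : x ∈ A)
    (hx' : x ∈ closure B) : x ∈ B := by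
  obtain ⟨E, hE, rfl⟩ := h
  exact ⟨hE.closure_subset ((closure_mono inter_subset_left) hx'), hx⟩

theorem exists_dist (S : Set X) :
    ∃ g : X → ℝ, Continuous g ∧ (∀ x, 0 ≤ g x) ∧ ∀ x, g x = 0 ↔ x ∈ closure S := by
  rcases S.eq_empty_or_nonempty with rfl | hS
  · exact ⟨fun _ => 1, continuous_const, fun _ => zero_le_one, fun x => by simp⟩
  · exact ⟨fun x => Metric.infDist x S, Metric.continuous_infDist_pt S,
      fun x => Metric.infDist_nonneg, fun x => (Metric.mem_closure_iff_infDist_zero hS).symm⟩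

/-- Relative normality. -/
theorem reln (A S T : Set X) (hS : IsClosed S) (hT : IsClosed T)
    (h : ∀ x ∈ A, x ∈ S → x ∉ T) :
    ∃ U V : Set X, IsOpen U ∧ IsOpen V ∧ (∀ x ∈ A, x ∈ S → x ∈ U) ∧
      (∀ x ∈ A, x ∈ T → x ∈ V) ∧ ∀ x ∈ A, x ∈ closure U → x ∉ closure V := by
  obtain ⟨g, hg, hg0, hgS⟩ := exists_dist S
  obtain ⟨h', hh, hh0, hhT⟩ := exists_dist T
  rw [hS.closure_eq] at hgS
  rw [hT.closure_eq] at hhT
  refine ⟨{x | 2 * g x < h' x}, {x | 2 * h' x < g x}, isOpen_lt (by fun_prop) hh,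
    isOpen_lt (by fun_prop) hg, ?_, ?_, ?_⟩
  · intro x hx hxS
    have h1 : g x = 0 := (hgS x).2 hxS
    have h2 : h' x ≠ 0 := fun h3 => h x hx hxS ((hhT x).1 h3)
    have h3 : 0 < h' x := lt_of_le_of_ne (hh0 x) (Ne.symm h2)
    show 2 * g x < h' x
    rw [h1]; linarith
  · intro x hx hxT
    have h1 : h' x = 0 := (hhT x).2 hxT
    have h2 : g x ≠ 0 := fun h3 => h x hx ((hgS x).1 h3) hxT
    have h3 : 0 < g x := lt_of_le_of_ne (hg0 x) (Ne.symm h2)
    show 2 * h' x < g x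
    rw [h1]; linarith
  · intro x hx h1 h2
    have h3 : 2 * g x ≤ h' x := closure_lt_subset_le (f := fun x => 2 * g x) (by fun_prop) hh h1
    have h4 : 2 * h' x ≤ g x := closure_lt_subset_le (f := fun x => 2 * h' x) (by fun_prop) hg h2
    have h5 := hg0 x
    have h6 := hh0 x
    have h7 : g x = 0 := by linarith
    have h8 : h' x = 0 := by linarith
    exact h x hx ((hgS x).1 h7) ((hhT x).1 h8)

/-- Separated sets in a metric space. -/
theorem sep (S T : Set X) (h1 : ∀ x ∈ closure S, x ∉ T) (h2 : ∀ x ∈ S, x ∉ closure T) :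
    ∃ O : Set X, IsOpen O ∧ S ⊆ O ∧ ∀ x ∈ closure O, x ∉ T := by
  obtain ⟨g, hg, hg0, hgS⟩ := exists_dist S
  obtain ⟨h', hh, hh0, hhT⟩ := exists_dist T
  refine ⟨{x | g x < h' x}, isOpen_lt hg hh, ?_, ?_⟩
  · intro x hxS
    have e1 : g x = 0 := (hgS x).2 (subset_closure hxS)
    have e2 : h' x ≠ 0 := fun h3 => h2 x hxS ((hhT x).1 h3)
    show g x < h' x
    rw [e1]
    exact lt_of_le_of_ne (hh0 x) (Ne.symm e2)
  · intro x hx hxT
    have e1 : g x ≤ h' x := closure_lt_subset_le hg hh hx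
    have e2 : h' x = 0 := (hhT x).2 (subset_closure hxT)
    have e3 : g x = 0 := le_antisymm (by linarith) (hg0 x)
    exact h1 x ((hgS x).1 e3) hxT

/-- A partition between separated sets which avoids a zero-dimensional set. -/
theorem part (S T Z : Set X) (h1 : ∀ x ∈ closure S, x ∉ T) (h2 : ∀ x ∈ S, x ∉ closure T)
    (hZ : ZD Z) (h3 : ∀ x ∈ Z, x ∈ closure S → x ∉ closure T) :
    ∃ O : Set X, IsOpen O ∧ S ⊆ O ∧ (∀ x ∈ closure O, x ∉ T) ∧
      ∀ x ∈ Z, x ∈ closure O → x ∈ O := by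
  obtain ⟨g, hg, hg0, hgS⟩ := exists_dist S
  obtain ⟨h', hh, hh0, hhT⟩ := exists_dist T
  obtain ⟨P, Q, hP, hQ, hcov, hdis, hC, hD⟩ := hZ {x | 3 * g x ≤ h' x} {x | 3 * h' x ≤ g x}
    (isClosed_le (by fun_prop) hh) (isClosed_le (by fun_prop) hg) (by
      intro x hx e1 e2
      have e1' : 3 * g x ≤ h' x := e1
      have e2' : 3 * h' x ≤ g x := e2
      have e3 := hg0 x
      have e4 := hh0 x
      have e5 : g x = 0 := by linarith
      have e6 : h' x = 0 := by linarith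
      exact h3 x hx ((hgS x).1 e5) ((hhT x).1 e6))
  obtain ⟨O, hO, hSO, hOT⟩ := sep (S ∪ (P ∩ Z)) (T ∪ (Q ∩ Z)) (by
      intro x hx
      rw [closure_union] at hx
      rcases hx with hx | hx
      · rintro (hxT | ⟨hxQ, hxZ⟩)
        · exact h1 x hx hxT
        · have e1 : g x = 0 := (hgS x).2 hx
          have e2 : x ∈ P := hC x hxZ (by
            show 3 * g x ≤ h' x
            rw [e1]; linarith [hh0 x])
          exact hdis x hxZ e2 hxQ
      · rintro (hxT | ⟨hxQ, hxZ⟩)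
        · have e1 : h' x = 0 := (hhT x).2 (subset_closure hxT)
          have e2 : g x ≠ 0 := fun e3 => h1 x ((hgS x).1 e3) hxT
          have e3 : 0 < g x := lt_of_le_of_ne (hg0 x) (Ne.symm e2)
          have e4 : IsOpen {y | 3 * h' y < g y} := isOpen_lt (by fun_prop) hg
          obtain ⟨y, hy1, hy2⟩ := mem_closure_iff.1 hx _ e4 (by
            show 3 * h' x < g x
            rw [e1]; linarith)
          have hy1' : 3 * h' y < g y := hy1
          exact hdis y hy2.2 hy2.1 (hD y hy2.2 hy1'.le)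
        · obtain ⟨y, hy1, hy2⟩ := mem_closure_iff.1 hx _ hQ hxQ
          exact hdis y hy2.2 hy2.1 hy1)
    (by
      intro x hx hxT
      rw [closure_union] at hxT
      rcases hxT with hxT | hxT
      · rcases hx with hx | ⟨hxP, hxZ⟩
        · exact h2 x hx hxT
        · have e1 : h' x = 0 := (hhT x).2 hxT
          have e2 : x ∈ Q := hD x hxZ (by
            show 3 * h' x ≤ g x
            rw [e1]; linarith [hg0 x])
          exact hdis x hxZ hxP e2
      · rcases hx with hx | ⟨hxP, hxZ⟩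
        · have e1 : g x = 0 := (hgS x).2 (subset_closure hx)
          have e2 : h' x ≠ 0 := fun e3 => h2 x hx ((hhT x).1 e3)
          have e3 : 0 < h' x := lt_of_le_of_ne (hh0 x) (Ne.symm e2)
          have e4 : IsOpen {y | 3 * g y < h' y} := isOpen_lt (by fun_prop) hh
          obtain ⟨y, hy1, hy2⟩ := mem_closure_iff.1 hxT _ e4 (by
            show 3 * g x < h' x
            rw [e1]; linarith)
          have hy1' : 3 * g y < h' y := hy1
          exact hdis y hy2.2 (hC y hy2.2 hy1'.le) hy2.1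
        · obtain ⟨y, hy1, hy2⟩ := mem_closure_iff.1 hxT _ hP hxP
          exact hdis y hy2.2 hy1 hy2.1)
  refine ⟨O, hO, fun x hx => hSO (Or.inl hx), fun x hx hxT => hOT x hx (Or.inl hxT), ?_⟩
  intro x hxZ hx
  rcases hcov x hxZ with hxP | hxQ
  · exact hSO (Or.inr ⟨hxP, hxZ⟩)
  · exact absurd (Or.inr ⟨hxQ, hxZ⟩) (hOT x hx)

theorem zd_empty : ZD (∅ : Set X) := by
  intro C D _ _ _
  exact ⟨∅, ∅, isOpen_empty, isOpen_empty, by simp, by simp, by simp, by simp⟩

theorem ZD.rc {A B : Set X} (h : ZD A) (hB : RC A B) : ZD B := by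
  obtain ⟨E, hE, rfl⟩ := hB
  intro C D hC hD hCD
  obtain ⟨P, Q, hP, hQ, h1, h2, h3, h4⟩ := h (C ∩ E) D (hC.inter hE) hD
    (fun x hx hx' => hCD x ⟨hx'.2, hx⟩ hx'.1)
  exact ⟨P, Q, hP, hQ, fun x hx => h1 x hx.2, fun x hx => h2 x hx.2,
    fun x hx hxC => h3 x hx.2 ⟨hxC, hx.1⟩, fun x hx => h4 x hx.2⟩

/-- Countable sum theorem for dimension `0`. -/
theorem zd_iUnion (A : Set X) (B : ℕ → Set X) (hB : ∀ i, RC A (B i))
    (hcov : ∀ x ∈ A, ∃ i, x ∈ B i) (hz : ∀ i, ZD (B i)) : ZD A := by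
  intro C D hC hD hCD
  obtain ⟨U0, V0, hU0, hV0, h1, h2, h3⟩ := reln A C D hC hD hCD
  have step : ∀ (i : ℕ) (p : {p : Set X × Set X // IsOpen p.1 ∧ IsOpen p.2 ∧
      ∀ x ∈ A, x ∈ closure p.1 → x ∉ closure p.2}),
      ∃ q : {p : Set X × Set X // IsOpen p.1 ∧ IsOpen p.2 ∧
        ∀ x ∈ A, x ∈ closure p.1 → x ∉ closure p.2},
        (∀ x ∈ A, x ∈ p.1.1 → x ∈ q.1.1) ∧ (∀ x ∈ A, x ∈ p.1.2 → x ∈ q.1.2) ∧
          ∀ x ∈ B i, x ∈ q.1.1 ∨ x ∈ q.1.2 := by
    rintro i ⟨⟨U, V⟩, hU, hV, hUV⟩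
    obtain ⟨P, Q, hP, hQ, e1, e2, e3, e4⟩ := hz i (closure U) (closure V) isClosed_closure
      isClosed_closure (fun x hx => hUV x ((hB i).subset hx))
    obtain ⟨E, hE, hBE⟩ := hB i
    obtain ⟨U', V', hU', hV', f1, f2, f3⟩ := reln A (closure U ∪ (E ∩ Qᶜ))
      (closure V ∪ (E ∩ Pᶜ))
      (isClosed_closure.union (hE.inter hQ.isClosed_compl))
      (isClosed_closure.union (hE.inter hP.isClosed_compl)) (by
        intro x hx hx1 hx2
        rcases hx1 with hx1 | ⟨hx1, hx1'⟩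
        · rcases hx2 with hx2 | ⟨hx2, hx2'⟩
          · exact hUV x hx hx1 hx2
          · exact hx2' (e3 x (by rw [hBE]; exact ⟨hx2, hx⟩) hx1)
        · rcases hx2 with hx2 | ⟨hx2, hx2'⟩
          · exact hx1' (e4 x (by rw [hBE]; exact ⟨hx1, hx⟩) hx2)
          · rcases e1 x (by rw [hBE]; exact ⟨hx1, hx⟩) with hh | hh
            · exact hx2' hh
            · exact hx1' hh)
    refine ⟨⟨(U', V'), hU', hV', f3⟩, fun x hx hxU => f1 x hx (Or.inl (subset_closure hxU)),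
      fun x hx hxV => f2 x hx (Or.inl (subset_closure hxV)), ?_⟩
    intro x hx
    have hxA : x ∈ A := by
      rw [hBE] at hx
      exact hx.2
    have hxE : x ∈ E := by
      rw [hBE] at hx
      exact hx.1
    rcases e1 x hx with hh | hh
    · exact Or.inl (f1 x hxA (Or.inr ⟨hxE, e2 x hx hh⟩))
    · exact Or.inr (f2 x hxA (Or.inr ⟨hxE, fun hP' => e2 x hx hP' hh⟩))
  choose next hn1 hn2 hn3 using step
  let st : ℕ → {p : Set X × Set X // IsOpen p.1 ∧ IsOpen p.2 ∧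
      ∀ x ∈ A, x ∈ closure p.1 → x ∉ closure p.2} :=
    fun n => Nat.rec ⟨(U0, V0), hU0, hV0, h3⟩ (fun i p => next i p) n
  have hst : ∀ n, st (n + 1) = next n (st n) := fun n => rfl
  have mono1 : ∀ x ∈ A, ∀ m n, m ≤ n → x ∈ (st m).1.1 → x ∈ (st n).1.1 := by
    intro x hx m n hmn hxm
    induction hmn with
    | refl => exact hxm
    | step _ ih =>
      rw [hst]
      exact hn1 _ _ x hx ih
  have mono2 : ∀ x ∈ A, ∀ m n, m ≤ n → x ∈ (st m).1.2 → x ∈ (st n).1.2 := by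
    intro x hx m n hmn hxm
    induction hmn with
    | refl => exact hxm
    | step _ ih =>
      rw [hst]
      exact hn2 _ _ x hx ih
  refine ⟨⋃ n, (st n).1.1, ⋃ n, (st n).1.2, isOpen_iUnion fun n => (st n).2.1,
    isOpen_iUnion fun n => (st n).2.2.1, ?_, ?_, ?_, ?_⟩
  · intro x hx
    obtain ⟨i, hi⟩ := hcov x hx
    rcases hn3 i (st i) x hi with hh | hh
    · exact Or.inl (mem_iUnion.2 ⟨i + 1, by rw [hst]; exact hh⟩)
    · exact Or.inr (mem_iUnion.2 ⟨i + 1, by rw [hst]; exact hh⟩)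
  · intro x hx hx1 hx2
    obtain ⟨m, hm⟩ := mem_iUnion.1 hx1
    obtain ⟨n, hn⟩ := mem_iUnion.1 hx2
    have e1 := mono1 x hx m (max m n) (le_max_left _ _) hm
    have e2 := mono2 x hx n (max m n) (le_max_right _ _) hn
    exact (st (max m n)).2.2.2 x hx (subset_closure e1) (subset_closure e2)
  · intro x hx hxC
    exact mem_iUnion.2 ⟨0, h1 x hx hxC⟩
  · intro x hx hxD
    exact mem_iUnion.2 ⟨0, h2 x hx hxD⟩

/-- Disjoint locally finite sums of relatively closed zero-dimensional sets. -/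
theorem zd_disjoint {ι : Type} (A : Set X) (B : ι → Set X) (hlf : LocallyFinite B)
    (hB : ∀ s, RC A (B s)) (hcov : ∀ x ∈ A, ∃ s, x ∈ B s)
    (hdis : ∀ s t, s ≠ t → ∀ x ∈ B s, x ∉ B t) (hz : ∀ s, ZD (B s)) : ZD A := by
  intro C D hC hD hCD
  choose P Q hP hQ h1 h2 h3 h4 using fun s =>
    hz s C D hC hD (fun x hx => hCD x ((hB s).subset hx))
  have hG : ∀ s, ∀ x ∈ A, x ∈ (closure (⋃ t : {t // t ≠ s}, B t))ᶜ ↔ x ∈ B s := by
    intro s x hx
    constructor
    · intro hx'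
      obtain ⟨t, ht⟩ := hcov x hx
      by_cases hts : t = s
      · rw [← hts]; exact ht
      · exact absurd (subset_closure (mem_iUnion.2 ⟨⟨t, hts⟩, ht⟩)) hx'
    · intro hxs hx'
      have hlf' : LocallyFinite (fun t : {t // t ≠ s} => B t) :=
        hlf.comp_injective Subtype.val_injective
      rw [hlf'.closure_iUnion] at hx'
      obtain ⟨t, ht⟩ := mem_iUnion.1 hx'
      have := (hB t.1).mem_of_closure hx ht
      exact hdis t.1 s t.2 x this hxs
  refine ⟨⋃ s, P s ∩ (closure (⋃ t : {t // t ≠ s}, B t))ᶜ,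
    ⋃ s, Q s ∩ (closure (⋃ t : {t // t ≠ s}, B t))ᶜ,
    isOpen_iUnion fun s => (hP s).inter isClosed_closure.isOpen_compl,
    isOpen_iUnion fun s => (hQ s).inter isClosed_closure.isOpen_compl, ?_, ?_, ?_, ?_⟩
  · intro x hx
    obtain ⟨s, hs⟩ := hcov x hx
    rcases h1 s x hs with hh | hh
    · exact Or.inl (mem_iUnion.2 ⟨s, hh, (hG s x hx).2 hs⟩)
    · exact Or.inr (mem_iUnion.2 ⟨s, hh, (hG s x hx).2 hs⟩)
  · intro x hx hx1 hx2
    obtain ⟨s, hs1, hs2⟩ := mem_iUnion.1 hx1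
    obtain ⟨t, ht1, ht2⟩ := mem_iUnion.1 hx2
    have e1 := (hG s x hx).1 hs2
    have e2 := (hG t x hx).1 ht2
    by_cases hst : s = t
    · subst hst
      exact h2 s x e1 hs1 ht1
    · exact hdis s t hst x e1 e2
  · intro x hx hxC
    obtain ⟨s, hs⟩ := hcov x hx
    exact mem_iUnion.2 ⟨s, h3 s x hs hxC, (hG s x hx).2 hs⟩
  · intro x hx hxD
    obtain ⟨s, hs⟩ := hcov x hx
    exact mem_iUnion.2 ⟨s, h4 s x hs hxD, (hG s x hx).2 hs⟩

end CD
end Pool.Agent.Lib.MP_10cfb2_gt
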