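import Pool.Agent.Lib.MP_10cfb2_gt.CDa

/-!
# Dimension theory of subspaces of a metric space, part 2

Sum theorems for `DD k`, spaces with a sigma-locally finite clopen base, and the decomposition
theorem: `IndLT k A` if and only if `DD k A`.
-/

namespace Pool.Agent.Lib.MP_10cfb2_gt
namespace CD

open Set Topology Filter

variable {X : Type} [MetricSpace X]

theorem DD.rc {k : ℕ} {A B : Set X} (h : DD k A) (hB : RC A B) : DD k B := by
  obtain ⟨f, hf, hz⟩ := h
  refine ⟨f, fun x hx => hf x (hB.subset hx), fun j => (hz j).rc ?_⟩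
  obtain ⟨E, hE, rfl⟩ := hB
  refine ⟨E, hE, ?_⟩
  ext x
  simp only [mem_inter_iff, mem_ofPred_eq]
  tauto

/-- The pieces used in both sum theorems. -/
theorem dd_pieces {ι : Type} [LinearOrder ι] [WellFoundedLT ι] (k : ℕ) (A : Set X)
    (B : ι → Set X) (hB : ∀ s, RC A (B s)) (hlt : ∀ s : ι, RC A (⋃ t : {t : ι // t < s}, B t.1))
    (hcov : ∀ x ∈ A, ∃ s, x ∈ B s) (hd : ∀ s, DD k (B s)) :
    ∃ (f : X → ℕ) (E : ℕ → ι → Set X), (∀ x ∈ A, f x < k) ∧ (∀ m s, E m s ⊆ B s) ∧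
      (∀ m s, RC A (E m s)) ∧ (∀ x ∈ A, ∃ m s, x ∈ E m s) ∧
      (∀ m m' s t, s ≠ t → ∀ x ∈ E m s, x ∉ E m' t) ∧
      ∀ m s j, ZD {x | x ∈ E m s ∧ f x = j} := by
  classical
  choose F hF1 hF2 using hd
  choose g hg hg0 hgS using fun s : ι => exists_dist (⋃ t : {t : ι // t < s}, B t.1)
  have hleast : ∀ x ∈ A, ∃ s, x ∈ B s ∧ ∀ t < s, x ∉ B t := by
    intro x hx
    obtain ⟨s, hs⟩ := hcov x hx
    have hne : {s | x ∈ B s}.Nonempty := ⟨s, hs⟩
    refine ⟨WellFounded.min wellFounded_lt {s | x ∈ B s} hne,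
      WellFounded.min_mem wellFounded_lt {s | x ∈ B s} hne, ?_⟩
    intro t ht hxt
    exact WellFounded.not_lt_min wellFounded_lt {s | x ∈ B s} hxt ht
  let f : X → ℕ := fun x =>
    if h : ∃ s, x ∈ B s ∧ ∀ t < s, x ∉ B t then F h.choose x else 0
  have hfval : ∀ x s, x ∈ B s → (∀ t < s, x ∉ B t) → f x = F s x := by
    intro x s hxs hlt'
    have hex : ∃ s, x ∈ B s ∧ ∀ t < s, x ∉ B t := ⟨s, hxs, hlt'⟩
    have e1 : f x = F hex.choose x := dif_pos hex
    obtain ⟨e2, e3⟩ := hex.choose_spec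
    have e4 : hex.choose = s := by
      rcases lt_trichotomy hex.choose s with hh | hh | hh
      · exact absurd e2 (hlt' _ hh)
      · exact hh
      · exact absurd hxs (e3 _ hh)
    rw [e1, e4]
  have hEn : ∀ (m : ℕ) (s : ι) (x : X), x ∈ B s → (1 : ℝ) / (m + 1) ≤ g s x →
      ∀ t < s, x ∉ B t := by
    intro m s x _ hx t ht hxt
    have e1 : g s x = 0 := (hgS s x).2 (subset_closure (mem_iUnion.2 ⟨⟨t, ht⟩, hxt⟩))
    have e2 : (0 : ℝ) < 1 / (m + 1) := Nat.one_div_pos_of_nat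
    linarith
  refine ⟨f, fun m s => {x | x ∈ B s ∧ (1 : ℝ) / (m + 1) ≤ g s x}, ?_, ?_, ?_, ?_, ?_, ?_⟩
  · intro x hx
    obtain ⟨s, hs, hs'⟩ := hleast x hx
    rw [hfval x s hs hs']
    exact hF1 s x hs
  · intro m s x hx
    exact hx.1
  · intro m s
    obtain ⟨E, hE, hBE⟩ := hB s
    refine ⟨E ∩ {x | (1 : ℝ) / (m + 1) ≤ g s x},
      hE.inter (isClosed_le continuous_const (hg s)), ?_⟩
    ext x
    simp only [hBE, mem_inter_iff, mem_ofPred_eq]
    tauto
  · intro x hx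
    obtain ⟨s, hs, hs'⟩ := hleast x hx
    have e1 : g s x ≠ 0 := by
      intro e2
      have e3 := (hlt s).mem_of_closure hx ((hgS s x).1 e2)
      obtain ⟨t, ht⟩ := mem_iUnion.1 e3
      exact hs' t.1 t.2 ht
    have e2 : 0 < g s x := lt_of_le_of_ne (hg0 s x) (Ne.symm e1)
    obtain ⟨m, hm⟩ := exists_nat_one_div_lt e2
    exact ⟨m, s, hs, hm.le⟩
  · intro m m' s t hst x hx hx'
    rcases lt_or_gt_of_ne hst with hh | hh
    · exact hEn m' t x hx'.1 hx'.2 s hh hx.1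
    · exact hEn m s x hx.1 hx.2 t hh hx'.1
  · intro m s j
    refine (hF2 s j).rc ⟨{x | (1 : ℝ) / (m + 1) ≤ g s x},
      isClosed_le continuous_const (hg s), ?_⟩
    ext x
    simp only [mem_inter_iff, mem_ofPred_eq]
    constructor
    · rintro ⟨⟨h1, h2⟩, h3⟩
      refine ⟨h2, h1, ?_⟩
      rw [← h3, hfval x s h1 (hEn m s x h1 h2)]
    · rintro ⟨h2, h1, h3⟩
      refine ⟨⟨h1, h2⟩, ?_⟩
      rw [← h3, hfval x s h1 (hEn m s x h1 h2)]

theorem rc_iUnion_finite {ι : Type} [Finite ι] {A : Set X} {B : ι → Set X}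
    (hB : ∀ s, RC A (B s)) : RC A (⋃ s, B s) := by
  choose E hE hBE using hB
  refine ⟨⋃ s, E s, isClosed_iUnion_of_finite hE, ?_⟩
  rw [iUnion_inter]
  exact iUnion_congr hBE

theorem rc_iUnion_lf {ι : Type} {A : Set X} {B : ι → Set X} (hlf : LocallyFinite B)
    (hB : ∀ s, RC A (B s)) : RC A (⋃ s, B s) := by
  refine ⟨closure (⋃ s, B s), isClosed_closure, ?_⟩
  ext x
  constructor
  · intro hx
    refine ⟨subset_closure hx, ?_⟩
    obtain ⟨s, hs⟩ := mem_iUnion.1 hx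
    exact (hB s).subset hs
  · rintro ⟨hx, hxA⟩
    rw [hlf.closure_iUnion] at hx
    obtain ⟨s, hs⟩ := mem_iUnion.1 hx
    exact mem_iUnion.2 ⟨s, (hB s).mem_of_closure hxA hs⟩

/-- Countable sum theorem. -/
theorem dd_nat (k : ℕ) (A : Set X) (B : ℕ → Set X) (hB : ∀ s, RC A (B s))
    (hcov : ∀ x ∈ A, ∃ s, x ∈ B s) (hd : ∀ s, DD k (B s)) : DD k A := by
  obtain ⟨f, E, h1, h2, h3, h4, h5, h6⟩ := dd_pieces k A B hB
    (fun s => rc_iUnion_finite fun t : {t // t < s} => hB t) hcov hd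
  refine ⟨f, h1, fun j => ?_⟩
  refine zd_iUnion _ (fun n => {x | x ∈ E n.unpair.1 n.unpair.2 ∧ f x = j}) ?_ ?_
    (fun n => h6 _ _ _)
  · intro n
    obtain ⟨C, hC, hCE⟩ := h3 n.unpair.1 n.unpair.2
    refine ⟨C, hC, ?_⟩
    ext x
    simp only [hCE, mem_inter_iff, mem_ofPred_eq]
    tauto
  · rintro x ⟨hx, hxj⟩
    obtain ⟨m, s, hms⟩ := h4 x hx
    refine ⟨Nat.pair m s, ?_, hxj⟩
    rw [Nat.unpair_pair]
    exact hms

/-- Locally finite sum theorem. -/
theorem dd_lf {ι : Type} (k : ℕ) (A : Set X) (B : ι → Set X) (hlf : LocallyFinite B)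
    (hB : ∀ s, RC A (B s)) (hcov : ∀ x ∈ A, ∃ s, x ∈ B s) (hd : ∀ s, DD k (B s)) :
    DD k A := by
  obtain ⟨lin, hwf⟩ := exists_wellFoundedLT ι
  obtain ⟨f, E, h1, h2, h3, h4, h5, h6⟩ := dd_pieces k A B hB
    (fun s => rc_iUnion_lf (hlf.comp_injective Subtype.val_injective)
      fun t : {t // t < s} => hB t) hcov hd
  refine ⟨f, h1, fun j => ?_⟩
  have hlf' : ∀ m, LocallyFinite (fun s => {x | x ∈ E m s ∧ f x = j}) := by
    intro m
    refine hlf.subset fun s x hx => h2 m s hx.1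
  have hrc : ∀ m s, RC {x | x ∈ A ∧ f x = j} {x | x ∈ E m s ∧ f x = j} := by
    intro m s
    obtain ⟨C, hC, hCE⟩ := h3 m s
    refine ⟨C, hC, ?_⟩
    ext x
    simp only [hCE, mem_inter_iff, mem_ofPred_eq]
    tauto
  refine zd_iUnion _ (fun m => ⋃ s, {x | x ∈ E m s ∧ f x = j})
    (fun m => rc_iUnion_lf (hlf' m) (hrc m)) ?_ ?_
  · rintro x ⟨hx, hxj⟩
    obtain ⟨m, s, hms⟩ := h4 x hx
    exact ⟨m, mem_iUnion.2 ⟨s, hms, hxj⟩⟩
  · intro m
    refine zd_disjoint _ (fun s => {x | x ∈ E m s ∧ f x = j}) (hlf' m) ?_ ?_ ?_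
      (fun s => h6 m s j)
    · intro s
      obtain ⟨C, hC, hCE⟩ := hrc m s
      refine ⟨C, hC, ?_⟩
      ext x
      constructor
      · intro hx
        refine ⟨?_, mem_iUnion.2 ⟨s, hx⟩⟩
        rw [hCE] at hx
        exact hx.1
      · rintro ⟨hxC, hx⟩
        rw [hCE]
        refine ⟨hxC, ?_⟩
        obtain ⟨t, ht⟩ := mem_iUnion.1 hx
        exact ⟨(h3 m t).subset ht.1, ht.2⟩
    · intro x hx
      exact mem_iUnion.1 hx
    · intro s t hst x hx hx'
      exact h5 m m s t hst x hx.1 hx'.1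

/-- A space with a sigma-locally finite base of relatively clopen sets. -/
theorem zd_of_base {ι : Type} (Z : Set X) (O : ℕ → ι → Set X) (hO : ∀ i s, IsOpen (O i s))
    (hlf : ∀ i, LocallyFinite (O i))
    (hcl : ∀ i s, ∀ x ∈ Z, x ∈ closure (O i s ∩ Z) → x ∈ O i s)
    (hbase : ∀ x ∈ Z, ∀ V : Set X, IsOpen V → x ∈ V →
      ∃ i s, x ∈ O i s ∧ ∀ y ∈ Z, y ∈ O i s → y ∈ V) : ZD Z := by
  intro C D hC hD hCD
  -- unions of members of the base are relatively clopen
  have hun : ∀ (i : ℕ) (p : ι → Prop), ∀ x ∈ Z,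
      x ∈ closure ((⋃ s : {s // p s}, O i s) ∩ Z) → x ∈ ⋃ s : {s // p s}, O i s := by
    intro i p x hxZ hx
    have e1 : LocallyFinite (fun s : {s // p s} => O i s ∩ Z) :=
      ((hlf i).comp_injective Subtype.val_injective).subset fun s => inter_subset_left
    rw [iUnion_inter, e1.closure_iUnion] at hx
    obtain ⟨s, hs⟩ := mem_iUnion.1 hx
    exact mem_iUnion.2 ⟨s, hcl i s x hxZ hs⟩
  set U : ℕ → Set X := fun i => ⋃ s : {s // ∀ y ∈ Z, y ∈ O i s → y ∉ D}, O i s with hU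
  set W : ℕ → Set X := fun i => ⋃ s : {s // ∀ y ∈ Z, y ∈ O i s → y ∉ C}, O i s with hW
  have hUo : ∀ i, IsOpen (U i) := fun i => isOpen_iUnion fun s => hO i s
  have hWo : ∀ i, IsOpen (W i) := fun i => isOpen_iUnion fun s => hO i s
  have hUc : ∀ i, ∀ x ∈ Z, x ∈ closure (U i ∩ Z) → x ∈ U i := fun i => hun i _
  have hWc : ∀ i, ∀ x ∈ Z, x ∈ closure (W i ∩ Z) → x ∈ W i := fun i => hun i _
  have hUD : ∀ i, ∀ x ∈ Z, x ∈ U i → x ∉ D := by
    intro i x hx hxU
    obtain ⟨s, hs⟩ := mem_iUnion.1 hxU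
    exact s.2 x hx hs
  have hWC : ∀ i, ∀ x ∈ Z, x ∈ W i → x ∉ C := by
    intro i x hx hxW
    obtain ⟨s, hs⟩ := mem_iUnion.1 hxW
    exact s.2 x hx hs
  have hcov : ∀ x ∈ Z, ∃ i, x ∈ U i ∨ x ∈ W i := by
    intro x hx
    by_cases hxD : x ∈ D
    · have hxC : x ∈ Cᶜ := fun hxC => hCD x hx hxC hxD
      obtain ⟨i, s, h1, h2⟩ := hbase x hx Cᶜ hC.isOpen_compl hxC
      exact ⟨i, Or.inr (mem_iUnion.2 ⟨⟨s, h2⟩, h1⟩)⟩
    · obtain ⟨i, s, h1, h2⟩ := hbase x hx Dᶜ hD.isOpen_compl hxD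
      exact ⟨i, Or.inl (mem_iUnion.2 ⟨⟨s, h2⟩, h1⟩)⟩
  refine ⟨⋃ i, U i ∩ (⋃ j : {j // j < i}, closure (W j ∩ Z))ᶜ,
    ⋃ i, W i ∩ (⋃ j : {j // j < i + 1}, closure (U j ∩ Z))ᶜ,
    isOpen_iUnion fun i => (hUo i).inter
      (isClosed_iUnion_of_finite fun j => isClosed_closure).isOpen_compl,
    isOpen_iUnion fun i => (hWo i).inter
      (isClosed_iUnion_of_finite fun j => isClosed_closure).isOpen_compl, ?_, ?_, ?_, ?_⟩
  · intro x hx
    classical
    have hex := hcov x hx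
    have hmin := Nat.find_spec hex
    have hlt : ∀ j < Nat.find hex, ¬ (x ∈ U j ∨ x ∈ W j) := fun j hj => Nat.find_min hex hj
    by_cases hxU : x ∈ U (Nat.find hex)
    · refine Or.inl (mem_iUnion.2 ⟨Nat.find hex, hxU, ?_⟩)
      intro hx'
      obtain ⟨j, hj⟩ := mem_iUnion.1 hx'
      exact hlt j.1 j.2 (Or.inr (hWc j x hx hj))
    · refine Or.inr (mem_iUnion.2 ⟨Nat.find hex, hmin.resolve_left hxU, ?_⟩)
      intro hx'
      obtain ⟨j, hj⟩ := mem_iUnion.1 hx'
      rcases Nat.lt_succ_iff_lt_or_eq.1 j.2 with hh | hh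
      · exact hlt j.1 hh (Or.inl (hUc j x hx hj))
      · apply hxU
        rw [← hh]
        exact hUc j x hx hj
  · intro x hx h1 h2
    obtain ⟨i, hi1, hi2⟩ := mem_iUnion.1 h1
    obtain ⟨j, hj1, hj2⟩ := mem_iUnion.1 h2
    rcases lt_or_ge j i with hh | hh
    · exact hi2 (mem_iUnion.2 ⟨⟨j, hh⟩, subset_closure ⟨hj1, hx⟩⟩)
    · exact hj2 (mem_iUnion.2 ⟨⟨i, Nat.lt_succ_of_le hh⟩, subset_closure ⟨hi1, hx⟩⟩)
  · intro x hx hxC
    obtain ⟨i, hi⟩ := hcov x hx
    rcases hi with hi | hi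
    · refine mem_iUnion.2 ⟨i, hi, ?_⟩
      intro hx'
      obtain ⟨j, hj⟩ := mem_iUnion.1 hx'
      exact hWC j x hx (hWc j x hx hj) hxC
    · exact absurd hxC (hWC i x hx hi)
  · intro x hx hxD
    obtain ⟨i, hi⟩ := hcov x hx
    rcases hi with hi | hi
    · exact absurd hxD (hUD i x hx hi)
    · refine mem_iUnion.2 ⟨i, hi, ?_⟩
      intro hx'
      obtain ⟨j, hj⟩ := mem_iUnion.1 hx'
      exact hUD j x hx (hUc j x hx hj) hxD

theorem relFr_rc {A O : Set X} (hO : IsOpen O) : RC A (relFr A O) := by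
  refine ⟨closure (O ∩ A) ∩ Oᶜ, isClosed_closure.inter hO.isClosed_compl, ?_⟩
  ext x
  simp only [relFr, mem_ofPred_eq, mem_inter_iff, mem_compl_iff]
  tauto

/-- Unions of `k` zero-dimensional sets have large inductive dimension at most `k - 1`. -/
theorem indLT_of_dd : ∀ (k : ℕ) (A : Set X), DD k A → IndLT k A
  | 0, A => by
    rintro ⟨f, hf, _⟩
    show A = ∅
    ext x
    simp only [mem_empty_iff_false, iff_false]
    exact fun hx => absurd (hf x hx) (Nat.not_lt_zero _)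
  | k + 1, A => by
    rintro ⟨f, hf, hz⟩ F V hFV ⟨C, hC, hFC⟩ ⟨W, hW, hVW⟩
    have hFrc : RC A F := ⟨C, hC, hFC⟩
    have hTrc : RC A (A \ V) := by
      refine ⟨Wᶜ, hW.isClosed_compl, ?_⟩
      ext x
      simp only [hVW, Set.mem_sdiff, mem_inter_iff, mem_compl_iff]
      tauto
    obtain ⟨O, hO, h1, h2, h3⟩ := part F (A \ V) {x | x ∈ A ∧ f x = k}
      (fun x hx hxT => hxT.2 (hFV (hFrc.mem_of_closure hxT.1 hx)))
      (fun x hx hxT => (hTrc.mem_of_closure (hFrc.subset hx) hxT).2 (hFV hx))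
      (hz k)
      (fun x hx hxS hxT => (hTrc.mem_of_closure hx.1 hxT).2
        (hFV (hFrc.mem_of_closure hx.1 hxS)))
    refine ⟨O, hO, fun x hx => ⟨h1 hx, hFrc.subset hx⟩, ?_, ?_⟩
    · rintro x ⟨hxO, hxA⟩
      by_contra hxV
      exact h2 x (subset_closure hxO) ⟨hxA, hxV⟩
    · apply indLT_of_dd k
      refine ⟨f, ?_, fun j => (hz j).rc ?_⟩
      · intro x hx
        have e1 : f x < k + 1 := hf x hx.1
        have e2 : f x ≠ k := by
          intro e3
          exact hx.2.2 (h3 x ⟨hx.1, e3⟩ ((closure_mono inter_subset_left) hx.2.1))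
        omega
      · obtain ⟨E, hE, hEE⟩ := relFr_rc (A := A) hO
        refine ⟨E, hE, ?_⟩
        ext x
        simp only [hEE, mem_inter_iff, mem_ofPred_eq]
        tauto

/-- Locally finite open covers of small mesh, with a closed shrinking. -/
theorem exists_cover (ε : ℝ) (hε : 0 < ε) :
    ∃ U F : X → Set X, (∀ s, IsOpen (U s)) ∧ LocallyFinite U ∧ (∀ s, U s ⊆ Metric.ball s ε) ∧
      (∀ s, IsClosed (F s)) ∧ (∀ s, F s ⊆ U s) ∧ ⋃ s, F s = univ := by
  obtain ⟨U, hUo, hUc, hUlf, hUb⟩ := precise_refinement (fun s : X => Metric.ball s ε)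
    (fun s => Metric.isOpen_ball) (by
      refine eq_univ_of_forall fun x => mem_iUnion.2 ⟨x, Metric.mem_ball_self hε⟩)
  obtain ⟨F, hFc, hF, hFU⟩ := exists_iUnion_eq_closed_subset hUo (fun x => hUlf.point_finite x)
    hUc
  exact ⟨U, F, hUo, hUlf, hUb, hF, hFU, hFc⟩

/-- The decomposition theorem. -/
theorem dd_of_indLT : ∀ (k : ℕ) (A : Set X), IndLT k A → DD k A
  | 0, A => by
    intro h
    have hA : A = ∅ := h
    subst hA
    refine ⟨fun _ => 0, fun x hx => absurd hx (notMem_empty x), fun j => ?_⟩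
    have : {x : X | x ∈ (∅ : Set X) ∧ (0 : ℕ) = j} = ∅ := by
      ext x; simp
    rw [this]
    exact zd_empty
  | k + 1, A => by
    intro h
    classical
    -- the covers
    choose U F hUo hUlf hUb hF hFU hFc using fun i : ℕ =>
      exists_cover (X := X) ((1 : ℝ) / (i + 1)) Nat.one_div_pos_of_nat
    have hO : ∀ (i : ℕ) (s : X), ∃ O : Set X, IsOpen O ∧ F i s ∩ A ⊆ O ∧ O ∩ A ⊆ U i s ∧
        O ⊆ U i s ∧ IndLT k (relFr A O) := by
      intro i s
      obtain ⟨O, hO, h1, h2, h3⟩ := h (F i s ∩ A) (U i s ∩ A)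
        (inter_subset_inter_left _ (hFU i s)) ⟨F i s, hF i s, rfl⟩ ⟨U i s, hUo i s, rfl⟩
      have e1 : O ∩ U i s ∩ A = O ∩ A := by
        ext x
        constructor
        · rintro ⟨⟨a, _⟩, b⟩
          exact ⟨a, b⟩
        · rintro ⟨a, b⟩
          exact ⟨⟨a, (h2 ⟨a, b⟩).1⟩, b⟩
      refine ⟨O ∩ U i s, hO.inter (hUo i s), ?_, ?_, inter_subset_right, ?_⟩
      · intro x hx
        exact ⟨(h1 hx).1, hFU i s hx.1⟩
      · rw [e1]
        exact fun x hx => (h2 hx).1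
      · have e2 : relFr A (O ∩ U i s) = relFr A O := by
          ext x
          simp only [relFr, e1, mem_ofPred_eq, mem_inter_iff]
          constructor
          · rintro ⟨a, b, c⟩
            exact ⟨a, b, fun hxO => c ⟨hxO, (h2 ⟨hxO, a⟩).1⟩⟩
          · rintro ⟨a, b, c⟩
            exact ⟨a, b, fun hx => c hx.1⟩
        rw [e2]
        exact h3
    choose O hOo hO1 hO2 hO3 hO4 using hO
    have hOlf : ∀ i, LocallyFinite (O i) := fun i => (hUlf i).subset (hO3 i)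
    -- the boundaries
    have hRlf : ∀ i, LocallyFinite (fun s => relFr A (O i s)) := by
      intro i
      refine (hOlf i).closure.subset fun s x hx => closure_mono inter_subset_left hx.2.1
    have hRi : ∀ i, RC A (⋃ s, relFr A (O i s)) := fun i =>
      rc_iUnion_lf (hRlf i) fun s => relFr_rc (hOo i s)
    have hrc_sub : ∀ {P Q : Set X}, RC A P → P ⊆ Q → Q ⊆ A → RC Q P := by
      rintro P Q ⟨E, hE, rfl⟩ hPQ hQA
      refine ⟨E, hE, ?_⟩
      ext x
      exact ⟨fun hx => ⟨hx.1, hPQ hx⟩, fun hx => ⟨hx.1, hQA hx.2⟩⟩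
    have hRiD : ∀ i, DD k (⋃ s, relFr A (O i s)) := by
      intro i
      refine dd_lf k _ (fun s => relFr A (O i s)) (hRlf i) ?_ (fun x hx => mem_iUnion.1 hx)
        (fun s => dd_of_indLT k _ (hO4 i s))
      intro s
      exact hrc_sub (relFr_rc (hOo i s)) (subset_iUnion (fun s => relFr A (O i s)) s)
        (hRi i).subset
    have hRA : (⋃ i, ⋃ s, relFr A (O i s)) ⊆ A := iUnion_subset fun i => (hRi i).subset
    obtain ⟨f, hf, hz⟩ : DD k (⋃ i, ⋃ s, relFr A (O i s)) :=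
      dd_nat k _ (fun i => ⋃ s, relFr A (O i s))
        (fun i => hrc_sub (hRi i) (subset_iUnion (fun i => ⋃ s, relFr A (O i s)) i) hRA)
        (fun x hx => mem_iUnion.1 hx) hRiD
    -- the complement of the boundaries is zero-dimensional
    have hZ : ZD (A \ ⋃ i, ⋃ s, relFr A (O i s)) := by
      refine zd_of_base _ O hOo hOlf ?_ ?_
      · intro i s x hx hx'
        by_contra hxO
        apply hx.2
        refine mem_iUnion.2 ⟨i, mem_iUnion.2 ⟨s, hx.1, ?_, hxO⟩⟩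
        exact closure_mono (inter_subset_inter_right _ sdiff_subset) hx'
      · intro x hx V hV hxV
        obtain ⟨r, hr, hrV⟩ := Metric.isOpen_iff.1 hV x hxV
        obtain ⟨i, hi⟩ := exists_nat_one_div_lt (half_pos hr)
        have hxF : x ∈ ⋃ s, F i s := by rw [hFc i]; exact mem_univ x
        obtain ⟨s, hs⟩ := mem_iUnion.1 hxF
        refine ⟨i, s, hO1 i s ⟨hs, hx.1⟩, ?_⟩
        intro y hy hyO
        apply hrV
        have e1 := hUb i s (hFU i s hs)
        have e2 := hUb i s (hO3 i s hyO)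
        rw [Metric.mem_ball] at e1 e2 ⊢
        calc dist y x ≤ dist y s + dist x s := dist_triangle_right y x s
          _ < r := by linarith
    refine ⟨fun x => if x ∈ ⋃ i, ⋃ s, relFr A (O i s) then f x else k, ?_, ?_⟩
    · intro x hx
      by_cases hxR : x ∈ ⋃ i, ⋃ s, relFr A (O i s)
      · have e1 := hf x hxR
        show (if x ∈ ⋃ i, ⋃ s, relFr A (O i s) then f x else k) < k + 1
        rw [if_pos hxR]
        exact Nat.lt_succ_of_lt e1
      · show (if x ∈ ⋃ i, ⋃ s, relFr A (O i s) then f x else k) < k + 1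
        rw [if_neg hxR]
        exact Nat.lt_succ_self k
    · intro j
      by_cases hj : j = k
      · have e1 : {x | x ∈ A ∧ (if x ∈ ⋃ i, ⋃ s, relFr A (O i s) then f x else k) = j} =
            A \ ⋃ i, ⋃ s, relFr A (O i s) := by
          ext x
          rw [mem_ofPred_eq, Set.mem_sdiff]
          constructor
          · rintro ⟨h1, h2⟩
            refine ⟨h1, fun hxR => ?_⟩
            rw [if_pos hxR] at h2
            have := hf x hxR
            omega
          · rintro ⟨h1, h2⟩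
            refine ⟨h1, ?_⟩
            rw [if_neg h2, hj]
        rw [e1]
        exact hZ
      · have e1 : {x | x ∈ A ∧ (if x ∈ ⋃ i, ⋃ s, relFr A (O i s) then f x else k) = j} =
            {x | x ∈ ⋃ i, ⋃ s, relFr A (O i s) ∧ f x = j} := by
          ext x
          rw [mem_ofPred_eq, mem_ofPred_eq]
          constructor
          · rintro ⟨h1, h2⟩
            by_cases hxR : x ∈ ⋃ i, ⋃ s, relFr A (O i s)
            · rw [if_pos hxR] at h2
              exact ⟨hxR, h2⟩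
            · rw [if_neg hxR] at h2
              exact absurd h2.symm hj
          · rintro ⟨h1, h2⟩
            refine ⟨hRA h1, ?_⟩
            rw [if_pos h1]
            exact h2
        rw [e1]
        exact hz j

end CD
end Pool.Agent.Lib.MP_10cfb2_gt
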