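import Pool.Agent.Lib.MP_10cfb2_gt.CDb

/-!
# Countable-dimensional completely metrizable spaces
-/

namespace Pool.Agent.Lib.MP_10cfb2_gt
namespace CD

open Set Topology Filter

/-! ### `IndLT` is intrinsic -/

section intrinsic

variable {X Y : Type} [TopologicalSpace X] [TopologicalSpace Y]

theorem relFr_image {e : Y → X} (he : IsEmbedding e) (B : Set Y) (O : Set X) :
    relFr (e '' B) O = e '' relFr B (e ⁻¹' O) := by
  have key : ∀ y, e y ∈ closure (O ∩ e '' B) ↔ y ∈ closure (e ⁻¹' O ∩ B) := by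
    intro y
    rw [he.isInducing.closure_eq_preimage_closure_image, mem_preimage, image_preimage_inter]
  ext x
  constructor
  · rintro ⟨⟨y, hy, rfl⟩, h1, h2⟩
    exact ⟨y, ⟨hy, (key y).1 h1, h2⟩, rfl⟩
  · rintro ⟨y, ⟨hy, h1, h2⟩, rfl⟩
    exact ⟨⟨y, hy, rfl⟩, (key y).2 h1, h2⟩

theorem indLT_image {e : Y → X} (he : IsEmbedding e) :
    ∀ (k : ℕ) (B : Set Y), IndLT k (e '' B) ↔ IndLT k B
  | 0, B => by
    show e '' B = ∅ ↔ B = ∅
    exact image_eq_empty
  | k + 1, B => by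
    constructor
    · rintro h F V hFV ⟨C, hC, rfl⟩ ⟨W, hW, rfl⟩
      obtain ⟨C', hC', rfl⟩ := he.isInducing.isClosed_iff.1 hC
      obtain ⟨W', hW', rfl⟩ := he.isInducing.isOpen_iff.1 hW
      obtain ⟨O, hO, h1, h2, h3⟩ := h (C' ∩ e '' B) (W' ∩ e '' B) (by
          rintro x ⟨hx, y, hy, rfl⟩
          exact ⟨(hFV ⟨hx, hy⟩).1, y, hy, rfl⟩) ⟨C', hC', rfl⟩ ⟨W', hW', rfl⟩
      refine ⟨e ⁻¹' O, hO.preimage he.continuous, ?_, ?_, ?_⟩
      · rintro y ⟨hy, hyB⟩
        exact ⟨(h1 ⟨hy, y, hyB, rfl⟩).1, hyB⟩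
      · rintro y ⟨hy, hyB⟩
        exact ⟨(h2 ⟨hy, y, hyB, rfl⟩).1, hyB⟩
      · rw [relFr_image he] at h3
        exact (indLT_image he k _).1 h3
    · rintro h F V hFV ⟨C, hC, rfl⟩ ⟨W, hW, rfl⟩
      obtain ⟨O, hO, h1, h2, h3⟩ := h (e ⁻¹' C ∩ B) (e ⁻¹' W ∩ B) (by
          rintro y ⟨hy, hyB⟩
          exact ⟨(hFV ⟨hy, y, hyB, rfl⟩).1, hyB⟩)
        ⟨_, hC.preimage he.continuous, rfl⟩ ⟨_, hW.preimage he.continuous, rfl⟩
      obtain ⟨O', hO', rfl⟩ := he.isInducing.isOpen_iff.1 hO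
      refine ⟨O', hO', ?_, ?_, ?_⟩
      · rintro x ⟨hx, y, hyB, rfl⟩
        exact ⟨(h1 ⟨hx, hyB⟩).1, y, hyB, rfl⟩
      · rintro x ⟨hx, y, hyB, rfl⟩
        exact ⟨(h2 ⟨hx, hyB⟩).1, y, hyB, rfl⟩
      · rw [relFr_image he]
        exact (indLT_image he k _).2 h3

end intrinsic

section metric

variable {X : Type} [MetricSpace X]

theorem indLT_iff_dd (k : ℕ) (A : Set X) : IndLT k A ↔ DD k A :=
  ⟨dd_of_indLT k A, indLT_of_dd k A⟩

theorem DD.mono {k l : ℕ} (h : k ≤ l) {A : Set X} (hA : DD k A) : DD l A := by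
  obtain ⟨f, hf, hz⟩ := hA
  exact ⟨f, fun x hx => lt_of_lt_of_le (hf x hx) h, hz⟩

theorem IndLT.mono' {k l : ℕ} (h : k ≤ l) {A : Set X} (hA : IndLT k A) : IndLT l A :=
  (indLT_iff_dd l A).2 (((indLT_iff_dd k A).1 hA).mono h)

theorem IndLT.rc {k : ℕ} {A B : Set X} (hA : IndLT k A) (hB : RC A B) : IndLT k B :=
  (indLT_iff_dd k B).2 (((indLT_iff_dd k A).1 hA).rc hB)

/-- If no closed subset has dimension exactly `n`, then every finite-dimensional closed subset
has dimension at most `n - 1`. -/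
theorem gap_all {n : ℕ} (hgap : ∀ A : Set X, IsClosed A → IndLT (n + 1) A → IndLT n A) :
    ∀ (k : ℕ) (A : Set X), IsClosed A → IndLT k A → IndLT n A := by
  have aux : ∀ (k : ℕ) (A : Set X), IsClosed A → IndLT (n + k) A → IndLT n A := by
    intro k
    induction k with
    | zero => exact fun A _ h => h
    | succ k ih =>
      intro A hA h
      apply hgap A hA
      intro F V hFV hF hV
      obtain ⟨O, hO, h1, h2, h3⟩ := h F V hFV hF hV
      refine ⟨O, hO, h1, h2, ih _ ?_ h3⟩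
      obtain ⟨E, hE, hEE⟩ := relFr_rc (A := A) hO
      rw [hEE]
      exact hE.inter hA
  intro k A hA h
  exact aux k A hA (IndLT.mono' (by omega) h)

/-- The heart: in a complete space which is a countable union of zero-dimensional sets. -/
theorem main_complete [CompleteSpace X] (n : ℕ) (Z : ℕ → Set X) (hZ : ∀ i, ZD (Z i))
    (hcov : ∀ x, ∃ i, x ∈ Z i)
    (hgap : ∀ A : Set X, IsClosed A → IndLT (n + 1) A → IndLT n A) :
    IndLT n (univ : Set X) := by
  by_contra hbig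
  -- big closed sets contain big closed sets avoiding a zero-dimensional set
  have stepA : ∀ K : Set X, IsClosed K → ¬ IndLT n K → ∀ T : Set X, ZD T →
      ∃ L : Set X, IsClosed L ∧ L ⊆ K ∧ ¬ IndLT n L ∧ ∀ x ∈ L, x ∉ T := by
    intro K hK hKb T hT
    by_contra hcon
    push Not at hcon
    apply hKb
    apply hgap K hK
    rintro F V hFV ⟨C, hC, hFC⟩ ⟨W, hW, hVW⟩
    have hF : IsClosed F := by rw [hFC]; exact hC.inter hK
    have hTc : IsClosed (K \ V) := by
      have : K \ V = K ∩ Wᶜ := by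
        ext x
        simp only [hVW, Set.mem_sdiff, mem_inter_iff, mem_compl_iff]
        tauto
      rw [this]
      exact hK.inter hW.isClosed_compl
    obtain ⟨O, hO, h1, h2, h3⟩ := part F (K \ V) T
      (fun x hx hxT => hxT.2 (hFV (hF.closure_subset hx)))
      (fun x hx hxT => (hTc.closure_subset hxT).2 (hFV hx)) hT
      (fun x _ hxF hxT => (hTc.closure_subset hxT).2 (hFV (hF.closure_subset hxF)))
    refine ⟨O, hO, fun x hx => ⟨h1 hx, ?_⟩, ?_, ?_⟩
    · rw [hFC] at hx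
      exact hx.2
    · rintro x ⟨hxO, hxK⟩
      by_contra hxV
      exact h2 x (subset_closure hxO) ⟨hxK, hxV⟩
    · by_contra hb
      obtain ⟨E, hE, hEE⟩ := relFr_rc (A := K) hO
      have hcl : IsClosed (relFr K O) := by
        rw [hEE]
        exact hE.inter hK
      obtain ⟨x, hx, hxT⟩ := hcon (relFr K O) hcl (fun x hx => hx.1) hb
      exact hx.2.2 (h3 x hxT (closure_mono inter_subset_left hx.2.1))
  -- big closed sets contain small big closed sets
  have stepB : ∀ K : Set X, IsClosed K → ¬ IndLT n K → ∀ ε : ℝ, 0 < ε →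
      ∃ L : Set X, IsClosed L ∧ L ⊆ K ∧ ¬ IndLT n L ∧ ∃ c, L ⊆ Metric.ball c ε := by
    intro K hK hKb ε hε
    by_contra hcon
    push Not at hcon
    apply hKb
    obtain ⟨U, F, hUo, hUlf, hUb, hF, hFU, hFc⟩ := exists_cover (X := X) ε hε
    rw [indLT_iff_dd]
    refine dd_lf n K (fun s => F s ∩ K) ?_ (fun s => ⟨F s, hF s, rfl⟩) ?_ ?_
    · exact hUlf.subset fun s x hx => hFU s hx.1
    · intro x hx
      have hxF : x ∈ ⋃ s, F s := by rw [hFc]; exact mem_univ x
      obtain ⟨s, hs⟩ := mem_iUnion.1 hxF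
      exact ⟨s, hs, hx⟩
    · intro s
      rw [← indLT_iff_dd]
      by_contra hb
      exact hcon (F s ∩ K) ((hF s).inter hK) inter_subset_right hb s
        (fun x hx => hUb s (hFU s hx.1))
  have step : ∀ (i : ℕ) (p : {K : Set X // IsClosed K ∧ ¬ IndLT n K}),
      ∃ q : {K : Set X // IsClosed K ∧ ¬ IndLT n K}, q.1 ⊆ p.1 ∧ (∀ x ∈ q.1, x ∉ Z i) ∧
        ∃ c, q.1 ⊆ Metric.ball c (1 / ((i : ℝ) + 1)) := by
    rintro i ⟨K, hK, hKb⟩
    obtain ⟨L, hL, h1, h2, h3⟩ := stepA K hK hKb (Z i) (hZ i)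
    obtain ⟨M, hM, h4, h5, h6⟩ := stepB L hL h2 (1 / ((i : ℝ) + 1)) Nat.one_div_pos_of_nat
    exact ⟨⟨M, hM, h5⟩, h4.trans h1, fun x hx => h3 x (h4 hx), h6⟩
  choose next hn1 hn2 hn3 using step
  let st : ℕ → {K : Set X // IsClosed K ∧ ¬ IndLT n K} :=
    fun m => Nat.rec ⟨univ, isClosed_univ, hbig⟩ (fun i p => next i p) m
  have hst : ∀ m, st (m + 1) = next m (st m) := fun m => rfl
  have hmono : ∀ m k, m ≤ k → (st k).1 ⊆ (st m).1 := by
    intro m k hmk
    induction hmk with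
    | refl => exact subset_rfl
    | step _ ih =>
      rw [Nat.succ_eq_add_one, hst]
      exact (hn1 _ _).trans ih
  have hne : ∀ m, (st m).1.Nonempty := by
    intro m
    rw [nonempty_iff_ne_empty]
    intro h0
    apply (st m).2.2
    rw [h0]
    exact IndLT.mono' (Nat.zero_le n) (show (∅ : Set X) = ∅ from rfl)
  have hbd : ∀ m, ∃ c, (st (m + 1)).1 ⊆ Metric.ball c (1 / ((m : ℝ) + 1)) := by
    intro m
    rw [hst]
    exact hn3 _ _
  have hdiam : ∀ m, Metric.diam (st (m + 1)).1 ≤ 2 * (1 / ((m : ℝ) + 1)) := by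
    intro m
    obtain ⟨c, hc⟩ := hbd m
    exact (Metric.diam_mono hc Metric.isBounded_ball).trans
      (Metric.diam_ball Nat.one_div_pos_of_nat.le)
  obtain ⟨x, hx⟩ := Metric.nonempty_iInter_of_nonempty_biInter
    (s := fun m => (st (m + 1)).1) (fun m => (st (m + 1)).2.1)
    (fun m => by
      obtain ⟨c, hc⟩ := hbd m
      exact Metric.isBounded_ball.subset hc)
    (fun N => by
      obtain ⟨y, hy⟩ := hne (N + 1)
      refine ⟨y, mem_iInter₂.2 fun m hm => hmono (m + 1) (N + 1) (by omega) hy⟩)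
    (by
      refine squeeze_zero (fun m => Metric.diam_nonneg) hdiam ?_
      have := (tendsto_one_div_add_atTop_nhds_zero_nat (𝕜 := ℝ)).const_mul 2
      simpa using this)
  obtain ⟨i, hi⟩ := hcov x
  have e1 : x ∈ (st (i + 1)).1 := mem_iInter.1 hx i
  rw [hst] at e1
  exact hn2 i (st i) x e1 hi

end metric

theorem main_cm {Y : Type} [TopologicalSpace Y] [TopologicalSpace.IsCompletelyMetrizableSpace Y]
    (n : ℕ) (B : ℕ → Set Y) (hB : ∀ i, ∃ k, IndLT k (B i)) (hcov : ∀ x, ∃ i, x ∈ B i)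
    (hgap : ∀ A : Set Y, IsClosed A → IndLT (n + 1) A → IndLT n A) :
    IndLT n (univ : Set Y) := by
  let _ := TopologicalSpace.upgradeIsCompletelyMetrizable Y
  choose k hk using hB
  choose f hf hz using fun i => dd_of_indLT (k i) (B i) (hk i)
  refine main_complete n
    (fun m => {x | x ∈ B m.unpair.1 ∧ f m.unpair.1 x = m.unpair.2}) (fun m => hz _ _) ?_ hgap
  intro x
  obtain ⟨i, hi⟩ := hcov x
  refine ⟨Nat.pair i (f i x), ?_⟩
  rw [mem_ofPred_eq, Nat.unpair_pair]
  exact ⟨hi, rfl⟩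

/-- A metric space of infinite large inductive dimension which is a countable union of
finite-dimensional subspaces and a countable union of closed subspaces that are completely
metrizable or finite-dimensional contains closed subspaces of every finite dimension. -/
theorem main {X : Type} [MetricSpace X] (F B : ℕ → Set X) (hF : ∀ i, IsClosed (F i))
    (hFcov : ⋃ i, F i = univ)
    (hFc : ∀ i, (∃ k, IndLT k (F i)) ∨ TopologicalSpace.IsCompletelyMetrizableSpace (F i))
    (hBcov : ⋃ i, B i = univ) (hB : ∀ i, ∃ k, IndLT k (B i))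
    (hinf : ∀ k, ¬ IndLT k (univ : Set X)) (n : ℕ) :
    ∃ A : Set X, IsClosed A ∧ IndLT (n + 1) A ∧ ¬ IndLT n A := by
  by_contra hcon
  push Not at hcon
  have hall := gap_all hcon
  -- some `F i` is big
  have hbig : ∃ i, ¬ IndLT n (F i) := by
    by_contra h
    push Not at h
    apply hinf n
    rw [indLT_iff_dd]
    refine dd_nat n univ F (fun s => ⟨F s, hF s, by rw [inter_univ]⟩) ?_
      (fun s => (indLT_iff_dd n _).1 (h s))
    intro x hx
    rw [← hFcov] at hx
    exact mem_iUnion.1 hx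
  obtain ⟨i, hi⟩ := hbig
  have hcm : TopologicalSpace.IsCompletelyMetrizableSpace (F i) := by
    rcases hFc i with ⟨k, hk⟩ | h
    · exact absurd (hall k (F i) (hF i) hk) hi
    · exact h
  have hemb : IsEmbedding (Subtype.val : F i → X) := IsEmbedding.subtypeVal
  apply hi
  have key : IndLT n (univ : Set (F i)) := by
    refine main_cm n (fun j => Subtype.val ⁻¹' (B j)) ?_ ?_ ?_
    · intro j
      obtain ⟨k, hk⟩ := hB j
      refine ⟨k, (indLT_image hemb k _).1 ?_⟩
      refine IndLT.rc hk ⟨F i, hF i, ?_⟩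
      rw [Subtype.image_preimage_coe]
    · intro x
      have hx : x.1 ∈ ⋃ j, B j := by rw [hBcov]; exact mem_univ _
      obtain ⟨j, hj⟩ := mem_iUnion.1 hx
      exact ⟨j, hj⟩
    · intro A hA h
      rw [← indLT_image hemb] at h ⊢
      exact hcon _ ((hF i).isClosedEmbedding_subtypeVal.isClosedMap A hA) h
  rw [← indLT_image hemb] at key
  rw [image_univ, Subtype.range_coe] at key
  exact key

end CD
end Pool.Agent.Lib.MP_10cfb2_gt
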