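import Mathlib

/-!
# Dimension functions of subspaces of a topological space

All notions are for a subset `A` of an ambient space `X`, regarded as a subspace.
-/

namespace Pool.Agent.Lib.MP_10cfb2_gt

variable {X : Type} [TopologicalSpace X]

/-- The boundary, in the subspace `A`, of its relatively open subset `O ∩ A` (`O` open). -/
def relFr (A O : Set X) : Set X := {x : X | x ∈ A ∧ x ∈ closure (O ∩ A) ∧ x ∉ O}

/-- `IndLT k A` means that the subspace `A` has large inductive dimension at most `k - 1`. -/
def IndLT : ℕ → Set X → Prop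
  | 0, A => A = ∅
  | k + 1, A => ∀ F V : Set X, F ⊆ V → (∃ C : Set X, IsClosed C ∧ F = C ∩ A) →
      (∃ W : Set X, IsOpen W ∧ V = W ∩ A) →
      ∃ O : Set X, IsOpen O ∧ F ⊆ O ∩ A ∧ O ∩ A ⊆ V ∧ IndLT k (relFr A O)

/-- The subspace `A` has small transfinite dimension: it belongs to the least class of subspaces
that contains every `B` in which each point has arbitrarily small relatively open
neighbourhoods with boundary in the class. -/
def HasTrind (A : Set X) : Prop :=
  ∀ T : Set (Set X),
    (∀ B : Set X, (∀ x ∈ B, ∀ V : Set X, IsOpen V → x ∈ V →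
        ∃ O : Set X, IsOpen O ∧ x ∈ O ∧ O ∩ B ⊆ V ∧ relFr B O ∈ T) → B ∈ T) → A ∈ T

/-- The space `A` is an example as asked for in Q1, with the number `n`: it has small
transfinite dimension, infinite large inductive dimension, and no closed subspace of large
inductive dimension exactly `n`. -/
def Example (n : ℕ) (A : Set X) : Prop :=
  HasTrind A ∧ (∀ k, ¬ IndLT k A) ∧
    ∀ B : Set X, B ⊆ A → (∃ C, IsClosed C ∧ B = C ∩ A) → ¬ (IndLT (n + 1) B ∧ ¬ IndLT n B)

/-- A finite-dimensional form: every point of `A` has arbitrarily small neighbourhoods with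
boundary of large inductive dimension at most `n - 1` (so `A` has small inductive dimension at
most `n`), the large inductive dimension of `A` is infinite, and every closed subspace of `A`
has large inductive dimension at most `n - 1` or infinite. -/
def FiniteExample (n : ℕ) (A : Set X) : Prop :=
  (∀ x ∈ A, ∀ V : Set X, IsOpen V → x ∈ V →
      ∃ O : Set X, IsOpen O ∧ x ∈ O ∧ O ∩ A ⊆ V ∧ IndLT n (relFr A O)) ∧
    (∀ k, ¬ IndLT k A) ∧
    ∀ B : Set X, B ⊆ A → (∃ C, IsClosed C ∧ B = C ∩ A) → ∀ k, IndLT k B → IndLT n B

end Pool.Agent.Lib.MP_10cfb2_gt
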