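import Pool.Agent.Lib.MP_10cfb2_gt.Defs

/-!
# MP_10cfb2_gt: the partition game, absolute F-sigma-delta sets, completely paracompact subspaces
-/

set_option autoImplicit false

namespace Pool.Agent.Lib.MP_10cfb2_gt

/-- `L` is a partition of the space between `A` and `B`: the complement of `L` is the union of two
disjoint open sets, one containing `A` and the other one containing `B`. -/
def IsPartition {X : Type} [TopologicalSpace X] (A B L : Set X) : Prop :=
  ∃ U V : Set X, IsOpen U ∧ IsOpen V ∧ A ⊆ U ∧ B ⊆ V ∧ Disjoint U V ∧ L = (U ∪ V)ᶜ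

/-- The list of the first `m` of the sets `L 0, L 1, ..`, the last one first. -/
def hist {X : Type} (L : ℕ → Set X) : ℕ → List (Set X)
  | 0 => []
  | m + 1 => L m :: hist L m

/-- Player ONE has a winning strategy in the partition game on `X`. In the inning `m = 0, 1, ..`
ONE chooses two disjoint closed sets `A`, `B`, and TWO answers with a partition `L m` between them;
ONE wins if the intersection of all `L m` is not empty. A strategy is a function which assigns a pair
of disjoint closed sets to each finite list of sets (the previous answers of TWO). -/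
def OneWins (X : Type) [TopologicalSpace X] : Prop :=
  ∃ σ : List (Set X) → Set X × Set X,
    (∀ h, IsClosed (σ h).1 ∧ IsClosed (σ h).2 ∧ Disjoint (σ h).1 (σ h).2) ∧
    ∀ L : ℕ → Set X, (∀ m, IsPartition (σ (hist L m)).1 (σ (hist L m)).2 (L m)) →
      (⋂ m, L m).Nonempty

/-- The subspace `S` is homeomorphic to a countable intersection of countable unions of closed
subsets of a complete metric space. -/
def AbsFsd {X : Type} [TopologicalSpace X] (S : Set X) : Prop :=
  ∃ (Y : Type) (_ : MetricSpace Y) (_ : CompleteSpace Y) (e : S → Y) (C : ℕ → ℕ → Set Y),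
    Topology.IsEmbedding e ∧ (∀ m k, IsClosed (C m k)) ∧ Set.range e = ⋂ m, ⋃ k, C m k

/-- The subspace `S` is completely paracompact: it has a base which is the union of countably many
star-finite open covers. -/
def CompPara {X : Type} [TopologicalSpace X] (S : Set X) : Prop :=
  ∃ 𝒰 : ℕ → Set (Set S), (∀ i, ∀ U ∈ 𝒰 i, IsOpen U) ∧ (∀ i, ⋃₀ 𝒰 i = Set.univ) ∧
    (∀ i, ∀ U ∈ 𝒰 i, {V | V ∈ 𝒰 i ∧ (U ∩ V).Nonempty}.Finite) ∧
    ∀ (x : S) (W : Set S), IsOpen W → x ∈ W → ∃ i, ∃ U ∈ 𝒰 i, x ∈ U ∧ U ⊆ W

end Pool.Agent.Lib.MP_10cfb2_gt
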