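import Pool.Agent.Lib.MP_10cfb2_gt.CDc
import Pool.Agent.Lib.MP_10cfb2_gt.GDefs

/-!
# MP_10cfb2_gt: the partition game
-/

set_option autoImplicit false

namespace Pool.Agent.Lib.MP_10cfb2_gt
namespace GM

open Set Topology Filter CD

section metric

variable {X : Type} [MetricSpace X]

/-- A big closed set has a pair of disjoint closed sets such that the traces of all partitions are
big. -/
theorem exists_pair {n : ℕ} (hgap : ∀ A : Set X, IsClosed A → IndLT (n + 1) A → IndLT n A)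
    (K : Set X) (hK : IsClosed K) (hKb : ¬ IndLT n K) :
    ∃ p : Set X × Set X, (IsClosed p.1 ∧ IsClosed p.2 ∧ Disjoint p.1 p.2) ∧
      ∀ L, IsPartition p.1 p.2 L → ¬ IndLT n (K ∩ L) := by
  by_contra hcon
  push Not at hcon
  apply hKb
  apply hgap K hK
  rintro F V hFV ⟨C, hC, hFC⟩ ⟨W, hW, hVW⟩
  have hF : IsClosed F := by rw [hFC]; exact hC.inter hK
  have hTc : IsClosed (K \ V) := by
    have : K \ V = K ∩ Wᶜ := by
      ext x
      simp only [hVW, Set.mem_sdiff, mem_inter_iff, mem_compl_iff]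
      tauto
    rw [this]
    exact hK.inter hW.isClosed_compl
  obtain ⟨L, ⟨U, U', hU, hU', h1, h2, h3, h4⟩, h5⟩ := hcon (F, K \ V) ⟨hF, hTc, by
    rw [disjoint_left]
    intro x hx hx'
    exact hx'.2 (hFV hx)⟩
  refine ⟨U, hU, ?_, ?_, ?_⟩
  · intro x hx
    refine ⟨h1 hx, ?_⟩
    rw [hFC] at hx
    exact hx.2
  · rintro x ⟨hxU, hxK⟩
    by_contra hxV
    exact disjoint_left.1 h3 hxU (h2 ⟨hxK, hxV⟩)
  · refine IndLT.rc h5 ?_
    obtain ⟨E, hE, hEE⟩ := relFr_rc (A := K) hU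
    refine ⟨E, hE, ?_⟩
    rw [hEE]
    ext x
    constructor
    · rintro ⟨hxE, hxK⟩
      have hx : x ∈ relFr K U := by rw [hEE]; exact ⟨hxE, hxK⟩
      refine ⟨hxE, hxK, ?_⟩
      rw [h4, mem_compl_iff, mem_union, not_or]
      refine ⟨hx.2.2, fun hxU' => ?_⟩
      obtain ⟨y, hy1, hy2⟩ := mem_closure_iff.1 hx.2.1 U' hU' hxU'
      exact disjoint_left.1 h3 hy2.1 hy1
    · rintro ⟨hxE, hxK, -⟩
      exact ⟨hxE, hxK⟩

/-- Big closed sets contain small big closed sets. -/
theorem exists_small {n : ℕ} (K : Set X) (hK : IsClosed K) (hKb : ¬ IndLT n K) (ε : ℝ)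
    (hε : 0 < ε) :
    ∃ L : Set X, IsClosed L ∧ L ⊆ K ∧ ¬ IndLT n L ∧ ∃ c, L ⊆ Metric.ball c ε := by
  by_contra hcon
  push Not at hcon
  apply hKb
  obtain ⟨U, F, hUo, hUlf, hUb, hF, hFU, hFc⟩ := exists_cover (X := X) ε hε
  rw [indLT_iff_dd]
  refine dd_lf n K (fun s => F s ∩ K) ?_ (fun s => ⟨F s, hF s, rfl⟩) ?_ ?_
  · exact hUlf.subset fun s x hx => hFU s hx.1
  · intro x hx
    have hxF : x ∈ ⋃ s, F s := by rw [hFc]; exact mem_univ x
    obtain ⟨s, hs⟩ := mem_iUnion.1 hxF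
    exact ⟨s, hs, hx⟩
  · intro s
    rw [← indLT_iff_dd]
    by_contra hb
    exact hcon (F s ∩ K) ((hF s).inter hK) inter_subset_right hb s
      (fun x hx => hUb s (hFU s hx.1))

/-- Countable closed covers of a big closed set have a big member. -/
theorem exists_big {n : ℕ} (K : Set X) (hKb : ¬ IndLT n K) (E : ℕ → Set X)
    (hE : ∀ k, IsClosed (E k)) (hcov : K ⊆ ⋃ k, E k) : ∃ k, ¬ IndLT n (E k ∩ K) := by
  by_contra hcon
  push Not at hcon
  apply hKb
  rw [indLT_iff_dd]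
  refine dd_nat n K (fun k => E k ∩ K) (fun k => ⟨E k, hE k, rfl⟩) ?_
    (fun k => (indLT_iff_dd n _).1 (hcon k))
  intro x hx
  obtain ⟨k, hk⟩ := mem_iUnion.1 (hcov hx)
  exact ⟨k, hk, hx⟩

/-- One step of the strategy of ONE. -/
theorem exists_next {Y : Type} [MetricSpace Y] (e : X → Y) (he : Isometry e)
    (C : ℕ → ℕ → Set Y) (hC : ∀ m k, IsClosed (C m k)) (hr : range e = ⋂ m, ⋃ k, C m k) {n : ℕ}
    (m : ℕ) (K : Set X) (hK : IsClosed K) (hKb : ¬ IndLT n K) :
    ∃ K' : Set X, IsClosed K' ∧ ¬ IndLT n K' ∧ K' ⊆ K ∧ (∃ k, e '' K' ⊆ C m k) ∧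
      ∃ c, K' ⊆ Metric.ball c (1 / ((m : ℝ) + 1)) := by
  obtain ⟨k, hk⟩ := exists_big K hKb (fun k => e ⁻¹' (C m k))
    (fun k => (hC m k).preimage he.continuous) (by
      intro x _
      have hx : e x ∈ ⋂ m, ⋃ k, C m k := by rw [← hr]; exact mem_range_self x
      obtain ⟨k, hk⟩ := mem_iUnion.1 (mem_iInter.1 hx m)
      exact mem_iUnion.2 ⟨k, hk⟩)
  obtain ⟨L, hL, h1, h2, h3⟩ := exists_small _ (((hC m k).preimage he.continuous).inter hK) hk
    (1 / ((m : ℝ) + 1)) Nat.one_div_pos_of_nat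
  refine ⟨L, hL, h2, fun x hx => (h1 hx).2, ⟨k, ?_⟩, h3⟩
  rintro y ⟨x, hx, rfl⟩
  exact (h1 hx).1

/-- In an `F_σδ` subset of a complete space, with no closed subspace of dimension `n` and infinite
dimension, ONE wins. -/
theorem oneWins_of_big {Y : Type} [MetricSpace Y] [CompleteSpace Y] (e : X → Y) (he : Isometry e)
    (C : ℕ → ℕ → Set Y) (hC : ∀ m k, IsClosed (C m k)) (hr : range e = ⋂ m, ⋃ k, C m k) (n : ℕ)
    (hgap : ∀ A : Set X, IsClosed A → IndLT (n + 1) A → IndLT n A)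
    (hbig : ¬ IndLT n (univ : Set X)) : OneWins X := by
  classical
  choose pair hp1 hp2 using fun K : {K : Set X // IsClosed K ∧ ¬ IndLT n K} =>
    exists_pair hgap K.1 K.2.1 K.2.2
  choose next hn1 hn2 hn3 hn4 hn5 using
    fun (m : ℕ) (K : {K : Set X // IsClosed K ∧ ¬ IndLT n K}) =>
      exists_next e he C hC hr m K.1 K.2.1 K.2.2
  let step : ℕ → {K : Set X // IsClosed K ∧ ¬ IndLT n K} → Set X →
      {K : Set X // IsClosed K ∧ ¬ IndLT n K} := fun m K L =>
    if h : IsClosed (K.1 ∩ L) ∧ ¬ IndLT n (K.1 ∩ L) then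
      ⟨next m ⟨K.1 ∩ L, h⟩, hn1 m ⟨K.1 ∩ L, h⟩, hn2 m ⟨K.1 ∩ L, h⟩⟩ else K
  let st : List (Set X) → {K : Set X // IsClosed K ∧ ¬ IndLT n K} := fun h =>
    List.rec ⟨univ, isClosed_univ, hbig⟩ (fun L t K => step t.length K L) h
  have hst : ∀ (L : Set X) (t : List (Set X)), st (L :: t) = step t.length (st t) L :=
    fun L t => rfl
  have hlen : ∀ (L : ℕ → Set X) (m : ℕ), (hist L m).length = m := by
    intro L m
    induction m with
    | zero => rfl
    | succ m ih =>
      show (L m :: hist L m).length = m + 1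
      rw [List.length_cons, ih]
  refine ⟨fun h => pair (st h), fun h => hp1 (st h), ?_⟩
  intro L hL
  -- one step
  have hstep : ∀ m, (st (hist L (m + 1))).1 ⊆ (st (hist L m)).1 ∩ L m ∧
      (∃ k, e '' (st (hist L (m + 1))).1 ⊆ C m k) ∧
      ∃ c, (st (hist L (m + 1))).1 ⊆ Metric.ball c (1 / ((m : ℝ) + 1)) := by
    intro m
    have h1 : st (hist L (m + 1)) = step m (st (hist L m)) (L m) := by
      show st (L m :: hist L m) = _
      rw [hst, hlen]
    have h2 : IsClosed ((st (hist L m)).1 ∩ L m) ∧ ¬ IndLT n ((st (hist L m)).1 ∩ L m) := by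
      refine ⟨(st (hist L m)).2.1.inter ?_, hp2 _ (L m) (hL m)⟩
      obtain ⟨U, V, hU, hV, -, -, -, h3⟩ := hL m
      rw [h3]
      exact (hU.union hV).isClosed_compl
    have h3 : (st (hist L (m + 1))).1 = next m ⟨(st (hist L m)).1 ∩ L m, h2⟩ := by
      rw [h1]
      simp only [step]
      rw [dif_pos h2]
    rw [h3]
    exact ⟨hn3 m ⟨_, h2⟩, hn4 m ⟨_, h2⟩, hn5 m ⟨_, h2⟩⟩
  set Q : ℕ → Set X := fun m => (st (hist L m)).1 with hQ
  have hmono : ∀ m k, m ≤ k → Q k ⊆ Q m := by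
    intro m k hmk
    induction hmk with
    | refl => exact subset_rfl
    | step _ ih => exact ((hstep _).1.trans inter_subset_left).trans ih
  have hne : ∀ m, (Q m).Nonempty := by
    intro m
    rw [nonempty_iff_ne_empty]
    intro h0
    apply (st (hist L m)).2.2
    have h0' : (st (hist L m)).1 = ∅ := h0
    rw [h0']
    exact IndLT.mono' (Nat.zero_le n) (show (∅ : Set X) = ∅ from rfl)
  have hbdd : ∀ m, Bornology.IsBounded (Q (m + 1)) := by
    intro m
    obtain ⟨c, hc⟩ := (hstep m).2.2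
    exact Metric.isBounded_ball.subset hc
  have hdiam : ∀ m, Metric.diam (closure (e '' Q (m + 1))) ≤ 2 * (1 / ((m : ℝ) + 1)) := by
    intro m
    obtain ⟨c, hc⟩ := (hstep m).2.2
    rw [Metric.diam_closure, he.diam_image]
    exact (Metric.diam_mono hc Metric.isBounded_ball).trans
      (Metric.diam_ball Nat.one_div_pos_of_nat.le)
  obtain ⟨y, hy⟩ := Metric.nonempty_iInter_of_nonempty_biInter
    (s := fun m => closure (e '' Q (m + 1))) (fun m => isClosed_closure)
    (fun m => by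
      obtain ⟨c, hc⟩ := (hstep m).2.2
      refine Bornology.IsBounded.closure ?_
      refine (Metric.isBounded_ball (x := e c) (r := 1 / ((m : ℝ) + 1))).subset ?_
      rintro z ⟨x, hx, rfl⟩
      rw [Metric.mem_ball, he.dist_eq]
      exact Metric.mem_ball.1 (hc hx))
    (fun N => by
      obtain ⟨x, hx⟩ := hne (N + 1)
      refine ⟨e x, mem_iInter₂.2 fun m hm => subset_closure ⟨x, ?_, rfl⟩⟩
      exact hmono (m + 1) (N + 1) (by omega) hx)
    (by
      refine squeeze_zero (fun m => Metric.diam_nonneg) hdiam ?_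
      have := (tendsto_one_div_add_atTop_nhds_zero_nat (𝕜 := ℝ)).const_mul 2
      simpa using this)
  have hy' : ∀ m, y ∈ closure (e '' Q (m + 1)) := fun m => mem_iInter.1 hy m
  have hyr : y ∈ range e := by
    rw [hr]
    refine mem_iInter.2 fun m => ?_
    obtain ⟨k, hk⟩ := (hstep m).2.1
    exact mem_iUnion.2 ⟨k, (hC m k).closure_subset (closure_mono hk (hy' m))⟩
  obtain ⟨x, rfl⟩ := hyr
  refine ⟨x, mem_iInter.2 fun m => ?_⟩
  have h1 : x ∈ closure (Q (m + 1)) := by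
    rw [he.isEmbedding.isInducing.closure_eq_preimage_closure_image]
    exact hy' m
  rw [(st (hist L (m + 1))).2.1.closure_eq] at h1
  exact ((hstep m).1 h1).2

/-- In a countable union of zero-dimensional sets ONE does not win. -/
theorem not_oneWins (Z : ℕ → Set X) (hZ : ∀ i, ZD (Z i)) (hcov : ∀ x, ∃ i, x ∈ Z i) :
    ¬ OneWins X := by
  rintro ⟨σ, hσ, hwin⟩
  have hans : ∀ (m : ℕ) (h : List (Set X)), ∃ L : Set X, IsPartition (σ h).1 (σ h).2 L ∧
      ∀ x ∈ L, x ∉ Z m := by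
    intro m h
    obtain ⟨h1, h2, h3⟩ := hσ h
    obtain ⟨O, hO, e1, e2, e3⟩ := part (σ h).1 (σ h).2 (Z m)
      (fun x hx hx' => disjoint_left.1 h3 (h1.closure_subset hx) hx')
      (fun x hx hx' => disjoint_left.1 h3 hx (h2.closure_subset hx')) (hZ m)
      (fun x _ hx hx' => disjoint_left.1 h3 (h1.closure_subset hx) (h2.closure_subset hx'))
    refine ⟨(O ∪ (closure O)ᶜ)ᶜ, ⟨O, (closure O)ᶜ, hO, isClosed_closure.isOpen_compl, e1,
      fun x hx hx' => e2 x hx' hx, ?_, rfl⟩, ?_⟩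
    · rw [disjoint_left]
      intro x hx hx'
      exact hx' (subset_closure hx)
    · intro x hx hxZ
      rw [mem_compl_iff, mem_union, not_or, mem_compl_iff, not_not] at hx
      exact hx.1 (e3 x hxZ hx.2)
  choose ans ha1 ha2 using hans
  let hh : ℕ → List (Set X) := fun m => Nat.rec [] (fun i t => ans i t :: t) m
  have hhs : ∀ m, hh (m + 1) = ans m (hh m) :: hh m := fun m => rfl
  have hhist : ∀ m, hist (fun i => ans i (hh i)) m = hh m := by
    intro m
    induction m with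
    | zero => rfl
    | succ m ih =>
      show ans m (hh m) :: hist (fun i => ans i (hh i)) m = hh (m + 1)
      rw [ih, hhs]
  obtain ⟨x, hx⟩ := hwin (fun i => ans i (hh i)) (fun m => by
    rw [hhist]
    exact ha1 m (hh m))
  obtain ⟨i, hi⟩ := hcov x
  exact ha2 i (hh i) x (mem_iInter.1 hx i) hi

/-- A countable union of finite-dimensional sets is a countable union of zero-dimensional sets. -/
theorem exists_zd (B : ℕ → Set X) (hB : ∀ i, ∃ k, IndLT k (B i)) (hcov : ∀ x, ∃ i, x ∈ B i) :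
    ∃ Z : ℕ → Set X, (∀ i, ZD (Z i)) ∧ ∀ x, ∃ i, x ∈ Z i := by
  choose k hk using hB
  choose f hf hz using fun i => dd_of_indLT (k i) (B i) (hk i)
  refine ⟨fun m => {x | x ∈ B m.unpair.1 ∧ f m.unpair.1 x = m.unpair.2}, fun m => hz _ _, ?_⟩
  intro x
  obtain ⟨i, hi⟩ := hcov x
  refine ⟨Nat.pair i (f i x), ?_⟩
  rw [mem_ofPred_eq, Nat.unpair_pair]
  exact ⟨hi, rfl⟩

end metric

/-- If ONE wins on a closed subspace then ONE wins on the space. -/
theorem oneWins_of_closed {X : Type} [TopologicalSpace X] {S : Set X} (hS : IsClosed S)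
    (h : OneWins S) : OneWins X := by
  obtain ⟨σ, hσ, hwin⟩ := h
  have hcl : IsClosedEmbedding (Subtype.val : S → X) := hS.isClosedEmbedding_subtypeVal
  refine ⟨fun h => (Subtype.val '' (σ (h.map fun L => Subtype.val ⁻¹' L)).1,
    Subtype.val '' (σ (h.map fun L => Subtype.val ⁻¹' L)).2), ?_, ?_⟩
  · intro h
    obtain ⟨h1, h2, h3⟩ := hσ (h.map fun L => Subtype.val ⁻¹' L)
    refine ⟨hcl.isClosedMap _ h1, hcl.isClosedMap _ h2, ?_⟩
    exact (disjoint_image_iff Subtype.val_injective).2 h3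
  · intro L hL
    have hh : ∀ m, (hist L m).map (fun L => (Subtype.val ⁻¹' L : Set S)) =
        hist (fun m => (Subtype.val ⁻¹' (L m) : Set S)) m := by
      intro m
      induction m with
      | zero => rfl
      | succ m ih =>
        show ((L m) :: hist L m).map (fun L => (Subtype.val ⁻¹' L : Set S)) =
          Subtype.val ⁻¹' (L m) :: hist (fun m => (Subtype.val ⁻¹' (L m) : Set S)) m
        rw [List.map_cons, ih]
    obtain ⟨x, hx⟩ := hwin (fun m => Subtype.val ⁻¹' (L m)) (fun m => by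
      obtain ⟨U, V, hU, hV, h1, h2, h3, h4⟩ := hL m
      dsimp only at h1 h2
      rw [hh] at h1 h2
      refine ⟨Subtype.val ⁻¹' U, Subtype.val ⁻¹' V, hU.preimage continuous_subtype_val,
        hV.preimage continuous_subtype_val, ?_, ?_, h3.preimage _, ?_⟩
      · exact fun x hx => h1 ⟨x, hx, rfl⟩
      · exact fun x hx => h2 ⟨x, hx, rfl⟩
      · rw [h4, preimage_compl, preimage_union])
    exact ⟨x.1, mem_iInter.2 fun m => mem_iInter.1 hx m⟩

end GM
end Pool.Agent.Lib.MP_10cfb2_gt
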