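import Pool.Agent.Lib.MP_10cfb2_gt.GMa

/-!
# MP_10cfb2_gt: completely paracompact spaces with small boundaries
-/

set_option autoImplicit false

namespace Pool.Agent.Lib.MP_10cfb2_gt
namespace GM

open Set Topology Filter CD

section metric

variable {X : Type} [MetricSpace X]

/-- Dimension zero is hereditary. -/
theorem zd_subset {A B : Set X} (hA : ZD A) (hBA : B ⊆ A) : ZD B := by
  intro C D hC hD hCD
  obtain ⟨g, hg, hg0, hgS⟩ := exists_dist (C ∩ D)
  rw [(hC.inter hD).closure_eq] at hgS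
  have hA' : ZD (A ∩ (C ∩ D)ᶜ) := by
    refine zd_iUnion _ (fun k : ℕ => {x | 1 / ((k : ℝ) + 1) ≤ g x} ∩ A) ?_ ?_ ?_
    · intro k
      refine ⟨{x | 1 / ((k : ℝ) + 1) ≤ g x}, isClosed_le continuous_const hg, ?_⟩
      ext x
      constructor
      · rintro ⟨h1, h2⟩
        refine ⟨h1, h2, fun h3 => ?_⟩
        have h4 : g x = 0 := (hgS x).2 h3
        have h5 : 1 / ((k : ℝ) + 1) ≤ g x := h1
        have h6 : 0 < 1 / ((k : ℝ) + 1) := Nat.one_div_pos_of_nat
        linarith
      · rintro ⟨h1, h2, -⟩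
        exact ⟨h1, h2⟩
    · rintro x ⟨hxA, hx⟩
      have h1 : 0 < g x := lt_of_le_of_ne (hg0 x) fun h => hx ((hgS x).1 h.symm)
      obtain ⟨k, hk⟩ := exists_nat_one_div_lt h1
      exact ⟨k, hk.le, hxA⟩
    · intro k
      exact hA.rc ⟨_, isClosed_le continuous_const hg, rfl⟩
  obtain ⟨P, Q, hP, hQ, h1, h2, h3, h4⟩ := hA' C D hC hD (fun x hx hxC hxD => hx.2 ⟨hxC, hxD⟩)
  have hB : ∀ x ∈ B, x ∈ A ∩ (C ∩ D)ᶜ := fun x hx =>
    ⟨hBA hx, fun h => hCD x hx h.1 h.2⟩
  exact ⟨P, Q, hP, hQ, fun x hx => h1 x (hB x hx), fun x hx => h2 x (hB x hx),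
    fun x hx => h3 x (hB x hx), fun x hx => h4 x (hB x hx)⟩

/-- The subspace theorem. -/
theorem indLT_subset {k : ℕ} {A B : Set X} (hA : IndLT k A) (hBA : B ⊆ A) : IndLT k B := by
  obtain ⟨f, hf, hz⟩ := dd_of_indLT k A hA
  refine indLT_of_dd k B ⟨f, fun x hx => hf x (hBA hx), fun j => zd_subset (hz j) ?_⟩
  rintro x ⟨h1, h2⟩
  exact ⟨hBA h1, h2⟩

/-- A countable cover by open sets with small boundaries whose closures miss one of two closed
neighbourhoods gives a partition of small dimension. -/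
theorem exists_partition {n : ℕ} (F T : Set X) (F' T' : Set X) (hF' : IsOpen F') (hFF : F ⊆ F')
    (hTT : T ⊆ T') (hdis : ∀ x ∈ F', x ∉ T') (G : ℕ → Bool → Set X) (hG : ∀ j b, IsOpen (G j b))
    (hcov : ∀ x, ∃ j b, x ∈ G j b) (hfr : ∀ j b, IndLT n (relFr univ (G j b)))
    (h1 : ∀ j, ∀ x ∈ closure (G j true), x ∉ T') (h2 : ∀ j, ∀ x ∈ closure (G j false), x ∉ F') :
    ∃ O : Set X, IsOpen O ∧ F ⊆ O ∧ (∀ x ∈ O, x ∉ T) ∧ IndLT n (relFr univ O) := by
  classical
  -- one sequence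
  set g : ℕ → Set X := fun j => G (j / 2) (decide (j % 2 = 0)) with hg
  have hgo : ∀ j, IsOpen (g j) := fun j => hG _ _
  have hgc : ∀ x, ∃ j, x ∈ g j := by
    intro x
    obtain ⟨j, b, hx⟩ := hcov x
    cases b with
    | true =>
      refine ⟨2 * j, ?_⟩
      have e1 : 2 * j / 2 = j := by omega
      have e2 : 2 * j % 2 = 0 := by omega
      simp only [hg, e1, e2, decide_true]
      exact hx
    | false =>
      refine ⟨2 * j + 1, ?_⟩
      have e1 : (2 * j + 1) / 2 = j := by omega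
      have e2 : ¬ (2 * j + 1) % 2 = 0 := by omega
      simp only [hg, e1, e2, decide_false]
      exact hx
  set H : ℕ → Set X := fun j => g j \ ⋃ i : Fin j, closure (g i) with hH
  have hHo : ∀ j, IsOpen (H j) := fun j =>
    (hgo j).sdiff (isClosed_iUnion_of_finite fun i => isClosed_closure)
  have hHd : ∀ i j, i < j → ∀ x ∈ H i, x ∉ H j := by
    intro i j hij x hx hx'
    exact hx'.2 (mem_iUnion.2 ⟨⟨i, hij⟩, subset_closure hx.1⟩)
  set P : Set X := ⋃ j : {j : ℕ // j % 2 = 0}, H j with hP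
  set Q : Set X := ⋃ j : {j : ℕ // ¬ j % 2 = 0}, H j with hQ
  have hPo : IsOpen P := isOpen_iUnion fun j => hHo j
  have hQo : IsOpen Q := isOpen_iUnion fun j => hHo j
  have hPT : ∀ x ∈ P, x ∉ T' := by
    intro x hx
    obtain ⟨⟨j, hj⟩, hxj⟩ := mem_iUnion.1 hx
    refine h1 (j / 2) x (subset_closure ?_)
    have := hxj.1
    simp only [hg, hj, decide_true] at this
    exact this
  have hQF : ∀ x ∈ Q, x ∉ F' := by
    intro x hx
    obtain ⟨⟨j, hj⟩, hxj⟩ := mem_iUnion.1 hx
    refine h2 (j / 2) x (subset_closure ?_)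
    have := hxj.1
    simp only [hg, hj, decide_false] at this
    exact this
  have hPQ : ∀ x ∈ P, x ∉ Q := by
    intro x hx hx'
    obtain ⟨⟨i, hi⟩, hxi⟩ := mem_iUnion.1 hx
    obtain ⟨⟨j, hj⟩, hxj⟩ := mem_iUnion.1 hx'
    rcases lt_trichotomy i j with h | h | h
    · exact hHd i j h x hxi hxj
    · exact hj (h ▸ hi)
    · exact hHd j i h x hxj hxi
  refine ⟨F' ∪ P, hF'.union hPo, fun x hx => Or.inl (hFF hx), ?_, ?_⟩
  · rintro x (hx | hx) hxT
    · exact hdis x hx (hTT hxT)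
    · exact hPT x hx (hTT hxT)
  · -- the boundary
    have hsub : ∀ x ∈ relFr univ (F' ∪ P), ∃ j, x ∈ relFr univ (g j) := by
      intro x hx
      have hx2 : x ∈ closure (F' ∪ P) := by
        have := hx.2.1
        rwa [inter_univ] at this
      have hx3 : x ∉ F' ∪ P := hx.2.2
      have hx4 : x ∉ Q := by
        intro hxQ
        obtain ⟨y, hy1, hy2⟩ := mem_closure_iff.1 hx2 Q hQo hxQ
        rcases hy2 with h | h
        · exact hQF y hy1 h
        · exact hPQ y h hy1
      obtain ⟨j0, hj0⟩ := hgc x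
      have hex : ∃ j, x ∈ closure (g j) := ⟨j0, subset_closure hj0⟩
      refine ⟨Nat.find hex, mem_univ _, ?_, ?_⟩
      · rw [inter_univ]
        exact Nat.find_spec hex
      · intro hxg
        have hxH : x ∈ H (Nat.find hex) := by
          refine ⟨hxg, fun h => ?_⟩
          obtain ⟨i, hi⟩ := mem_iUnion.1 h
          exact Nat.find_min hex i.2 hi
        by_cases hpar : Nat.find hex % 2 = 0
        · exact hx3 (Or.inr (mem_iUnion.2 ⟨⟨Nat.find hex, hpar⟩, hxH⟩))
        · exact hx4 (mem_iUnion.2 ⟨⟨Nat.find hex, hpar⟩, hxH⟩)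
    rw [indLT_iff_dd]
    refine dd_nat n _ (fun j => relFr univ (g j) ∩ relFr univ (F' ∪ P)) ?_ ?_ ?_
    · intro j
      obtain ⟨E, hE, hEE⟩ := relFr_rc (A := (univ : Set X)) (hgo j)
      exact ⟨E, hE, by rw [hEE, inter_univ]⟩
    · intro x hx
      obtain ⟨j, hj⟩ := hsub x hx
      exact ⟨j, hj, hx⟩
    · intro j
      rw [← indLT_iff_dd]
      exact indLT_subset (hfr _ _) inter_subset_left

/-- Small boundaries in a completely paracompact space. -/
theorem indLT_succ_of_cpara {n : ℕ}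
    (hb : ∀ (x : X) (V : Set X), IsOpen V → x ∈ V →
      ∃ O : Set X, IsOpen O ∧ x ∈ O ∧ O ⊆ V ∧ IndLT n (relFr univ O))
    (𝒰 : ℕ → Set (Set X)) (hUo : ∀ i, ∀ U ∈ 𝒰 i, IsOpen U) (hUc : ∀ i, ⋃₀ 𝒰 i = univ)
    (hUf : ∀ i, ∀ U ∈ 𝒰 i, {V | V ∈ 𝒰 i ∧ (U ∩ V).Nonempty}.Finite)
    (hUb : ∀ (x : X) (W : Set X), IsOpen W → x ∈ W → ∃ i, ∃ U ∈ 𝒰 i, x ∈ U ∧ U ⊆ W) :
    IndLT (n + 1) (univ : Set X) := by
  classical
  rintro F V hFV ⟨C, hC, hFC⟩ ⟨W, hW, hVW⟩
  rw [inter_univ] at hFC hVW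
  subst hFC hVW
  -- separated neighbourhoods
  obtain ⟨F', T', hF', hT', hFF, hTT, hdis⟩ := reln (univ : Set X) F Vᶜ hC hW.isClosed_compl
    (fun x _ hx hx' => hx' (hFV hx))
  -- a good neighbourhood of every point
  have hgood : ∀ x : X, ∃ (O : Set X) (b : Bool), IsOpen O ∧ x ∈ O ∧ IndLT n (relFr univ O) ∧
      (b = true → ∀ y ∈ closure O, y ∉ T') ∧ (b = false → ∀ y ∈ closure O, y ∉ F') := by
    intro x
    by_cases hx : x ∈ closure T'
    · have hx' : x ∈ (closure F')ᶜ := fun h => hdis x (mem_univ x) h hx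
      obtain ⟨N, hN, hNo, hNx, hNc⟩ : ∃ N : Set X, True ∧ IsOpen N ∧ x ∈ N ∧
          closure N ⊆ (closure F')ᶜ := by
        obtain ⟨ε, hε, hball⟩ := Metric.nhds_basis_closedBall.mem_iff.1
          (isClosed_closure.isOpen_compl.mem_nhds hx')
        exact ⟨Metric.ball x ε, trivial, Metric.isOpen_ball, Metric.mem_ball_self hε,
          Metric.closure_ball_subset_closedBall.trans hball⟩
      obtain ⟨O, hO, hxO, hON, hfr⟩ := hb x N hNo hNx
      refine ⟨O, false, hO, hxO, hfr, fun h => absurd h (by simp), fun _ y hy hyF => ?_⟩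
      exact hNc (closure_mono hON hy) (subset_closure hyF)
    · obtain ⟨N, hN, hNo, hNx, hNc⟩ : ∃ N : Set X, True ∧ IsOpen N ∧ x ∈ N ∧
          closure N ⊆ (closure T')ᶜ := by
        obtain ⟨ε, hε, hball⟩ := Metric.nhds_basis_closedBall.mem_iff.1
          (isClosed_closure.isOpen_compl.mem_nhds hx)
        exact ⟨Metric.ball x ε, trivial, Metric.isOpen_ball, Metric.mem_ball_self hε,
          Metric.closure_ball_subset_closedBall.trans hball⟩
      obtain ⟨O, hO, hxO, hON, hfr⟩ := hb x N hNo hNx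
      refine ⟨O, true, hO, hxO, hfr, fun _ y hy hyF => ?_, fun h => absurd h (by simp)⟩
      exact hNc (closure_mono hON hy) (subset_closure hyF)
  choose Ox bx hO1 hO2 hO3 hO4 hO5 using hgood
  -- the classes of the covers
  let r : ℕ → X → X → Prop := fun i x y => ∃ U ∈ 𝒰 i, x ∈ U ∧ y ∈ U
  let R : ℕ → X → X → Prop := fun i => Relation.ReflTransGen (r i)
  have hrs : ∀ i x y, r i x y → r i y x := fun i x y ⟨U, hU, h1, h2⟩ => ⟨U, hU, h2, h1⟩
  have hRs : ∀ i x y, R i x y → R i y x := by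
    intro i x y h
    induction h with
    | refl => exact Relation.ReflTransGen.refl
    | tail _ h ih => exact Relation.ReflTransGen.head (hrs i _ _ h) ih
  -- the members which meet the class of `x` are countable
  have hcount : ∀ i x, {U | U ∈ 𝒰 i ∧ ∃ y, R i x y ∧ y ∈ U}.Countable := by
    intro i x
    -- by levels
    have hlev : ∀ m : ℕ, ∃ S : Set (Set X), S.Finite ∧ (∀ U ∈ S, U ∈ 𝒰 i) ∧
        (m = 0 → ∀ U ∈ 𝒰 i, x ∈ U → U ∈ S) := by
      intro m
      obtain ⟨U0, hU0, hxU0⟩ : ∃ U ∈ 𝒰 i, x ∈ U := by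
        have : x ∈ ⋃₀ 𝒰 i := by rw [hUc]; exact mem_univ x
        obtain ⟨U, hU, hx⟩ := this
        exact ⟨U, hU, hx⟩
      exact ⟨_, hUf i U0 hU0, fun U hU => hU.1, fun _ U hU hxU => ⟨hU, x, hxU0, hxU⟩⟩
    obtain ⟨S0, hS0f, hS0U, hS0⟩ := hlev 0
    let nx : Set (Set X) → Set (Set X) := fun S => {V | V ∈ 𝒰 i ∧ ∃ U ∈ S, (U ∩ V).Nonempty}
    let lv : ℕ → Set (Set X) := fun m => Nat.rec S0 (fun _ S => nx S) m
    have hlv : ∀ m, (lv m).Finite ∧ ∀ U ∈ lv m, U ∈ 𝒰 i := by
      intro m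
      induction m with
      | zero => exact ⟨hS0f, hS0U⟩
      | succ m ih =>
        refine ⟨?_, fun U hU => hU.1⟩
        have h1 : lv (m + 1) ⊆ ⋃ U ∈ lv m, {V | V ∈ 𝒰 i ∧ (U ∩ V).Nonempty} := by
          rintro V ⟨hV, U, hU, hUV⟩
          exact mem_iUnion₂.2 ⟨U, hU, hV, hUV⟩
        exact (Set.Finite.biUnion ih.1 fun U hU => hUf i U (ih.2 U hU)).subset h1
    have hreach : ∀ y, R i x y → ∃ m, ∀ U ∈ 𝒰 i, y ∈ U → U ∈ lv m := by
      intro y hy
      induction hy with
      | refl => exact ⟨0, fun U hU hxU => hS0 rfl U hU hxU⟩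
      | tail _ h ih =>
        obtain ⟨m, hm⟩ := ih
        obtain ⟨U', hU', h1, h2⟩ := h
        exact ⟨m + 1, fun U hU hyU => ⟨hU, U', hm U' hU' h1, _, h2, hyU⟩⟩
    refine (Set.countable_iUnion fun m => (hlv m).1.countable).mono ?_
    rintro U ⟨hU, y, hy, hyU⟩
    obtain ⟨m, hm⟩ := hreach y hy
    exact mem_iUnion.2 ⟨m, hm U hU hyU⟩
  have hne : ∀ i x, {U | U ∈ 𝒰 i ∧ ∃ y, R i x y ∧ y ∈ U}.Nonempty := by
    intro i x
    have : x ∈ ⋃₀ 𝒰 i := by rw [hUc]; exact mem_univ x
    obtain ⟨U, hU, hx⟩ := this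
    exact ⟨U, hU, x, Relation.ReflTransGen.refl, hx⟩
  have hrepr : ∀ i, ∃ rep : X → X, (∀ x, R i x (rep x)) ∧ ∀ x y, R i x y → rep x = rep y := by
    intro i
    let s : Setoid X := ⟨R i, ⟨fun x => Relation.ReflTransGen.refl, fun {x y} h => hRs i x y h,
      fun {x y z} h h' => h.trans h'⟩⟩
    refine ⟨fun x => (Quotient.mk s x).out, fun x => hRs i _ _ (Quotient.exact
      (Quotient.out_eq (Quotient.mk s x))), fun x y h => ?_⟩
    have : Quotient.mk s x = Quotient.mk s y := Quotient.sound h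
    simp only [this]
  choose rep hrep1 hrep2 using hrepr
  choose en hen using fun i x => (hcount i x).exists_eq_range (hne i x)
  -- the chosen neighbourhood for a member of a cover
  let gd : Set X → Prop := fun U => ∃ x, U ⊆ Ox x
  let ch : Set X → X → X := fun U d => if h : gd U then h.choose else d
  have hch : ∀ U d, gd U → U ⊆ Ox (ch U d) := by
    intro U d h
    simp only [ch]
    rw [dif_pos h]
    exact h.choose_spec
  let cls : ℕ → X → Set X := fun i t => {x | rep i x = t}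
  have hclso : ∀ i t, IsOpen (cls i t) := by
    intro i t
    rw [isOpen_iff_mem_nhds]
    intro x hx
    have : x ∈ ⋃₀ 𝒰 i := by rw [hUc]; exact mem_univ x
    obtain ⟨U, hU, hxU⟩ := this
    refine Filter.mem_of_superset ((hUo i U hU).mem_nhds hxU) fun y hy => ?_
    have h1 : rep i x = rep i y := hrep2 i x y (Relation.ReflTransGen.single ⟨U, hU, hxU, hy⟩)
    show rep i y = t
    rw [← h1]
    exact hx
  let A : ℕ → ℕ → Bool → X → Set X := fun i m b t =>
    {x | x ∈ cls i t ∧ gd (en i t m) ∧ x ∈ Ox (ch (en i t m) t) ∧ bx (ch (en i t m) t) = b}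
  let G0 : ℕ → ℕ → Bool → Set X := fun i m b => ⋃ t, A i m b t
  have hAo : ∀ i m b t, IsOpen (A i m b t) := by
    intro i m b t
    by_cases h : gd (en i t m) ∧ bx (ch (en i t m) t) = b
    · have : A i m b t = cls i t ∩ Ox (ch (en i t m) t) := by
        ext x
        exact ⟨fun hx => ⟨hx.1, hx.2.2.1⟩, fun hx => ⟨hx.1, h.1, hx.2, h.2⟩⟩
      rw [this]
      exact (hclso i t).inter (hO1 _)
    · have : A i m b t = ∅ := by
        ext x
        simp only [mem_empty_iff_false, iff_false]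
        exact fun hx => h ⟨hx.2.1, hx.2.2.2⟩
      rw [this]
      exact isOpen_empty
  have hG0o : ∀ i m b, IsOpen (G0 i m b) := fun i m b => isOpen_iUnion fun t => hAo i m b t
  -- near a point only one class matters
  have hloc : ∀ i m b x, x ∈ closure (G0 i m b) → x ∈ closure (A i m b (rep i x)) := by
    intro i m b x hx
    rw [mem_closure_iff] at hx ⊢
    intro N hN hxN
    obtain ⟨y, ⟨hy1, hy2⟩, hy3⟩ := hx (N ∩ cls i (rep i x)) (hN.inter (hclso i _)) ⟨hxN, rfl⟩
    obtain ⟨t, ht⟩ := mem_iUnion.1 hy3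
    have e1 : rep i y = t := ht.1
    have e2 : rep i y = rep i x := hy2
    rw [← e1, e2] at ht
    exact ⟨y, hy1, ht⟩
  have hAcl : ∀ i m b t x, x ∈ closure (A i m b t) →
      gd (en i t m) ∧ x ∈ closure (Ox (ch (en i t m) t)) ∧ bx (ch (en i t m) t) = b := by
    intro i m b t x hx
    obtain ⟨y, -, hy⟩ := mem_closure_iff.1 hx univ isOpen_univ (mem_univ x)
    exact ⟨hy.2.1, closure_mono (fun z hz => hz.2.2.1) hx, hy.2.2.2⟩
  obtain ⟨O, hO, hFO, hOT, hOfr⟩ := exists_partition (n := n) F Vᶜ F' T' hF' (fun x hx => hFF x (mem_univ x) hx)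
    (fun x hx => hTT x (mem_univ x) hx)
    (fun x hx hx' => hdis x (mem_univ x) (subset_closure hx) (subset_closure hx'))
    (fun j b => G0 j.unpair.1 j.unpair.2 b) (fun j b => hG0o _ _ _) (by
      intro x
      obtain ⟨i, U, hU, hxU, hUO⟩ := hUb x (Ox x) (hO1 x) (hO2 x)
      have hUm : U ∈ {U | U ∈ 𝒰 i ∧ ∃ y, R i (rep i x) y ∧ y ∈ U} :=
        ⟨hU, x, hRs i _ _ (hrep1 i x), hxU⟩
      rw [hen] at hUm
      obtain ⟨m, hm⟩ := hUm
      have hgd : gd (en i (rep i x) m) := by rw [hm]; exact ⟨x, hUO⟩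
      refine ⟨Nat.pair i m, bx (ch (en i (rep i x) m) (rep i x)), ?_⟩
      rw [Nat.unpair_pair]
      refine mem_iUnion.2 ⟨rep i x, rfl, hgd, ?_, rfl⟩
      refine hch _ _ hgd ?_
      rw [hm]
      exact hxU) (by
      intro j b
      set i := j.unpair.1
      set m := j.unpair.2
      rw [indLT_iff_dd]
      refine dd_lf n _ (fun t => relFr univ (G0 i m b) ∩ cls i t) ?_ ?_ ?_ ?_
      · intro x
        refine ⟨cls i (rep i x), (hclso i _).mem_nhds rfl, ?_⟩
        refine (Set.finite_singleton (rep i x)).subset ?_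
        rintro t ⟨y, hy1, hy2⟩
        have e1 : rep i y = t := hy1.2
        have e2 : rep i y = rep i x := hy2
        rw [mem_singleton_iff, ← e1, e2]
      · intro t
        refine ⟨cls i t, ?_, by rw [inter_comm]⟩
        have : cls i t = (⋃ s : {s : X // s ≠ t}, cls i s)ᶜ := by
          ext x
          constructor
          · intro hx hx'
            obtain ⟨⟨s, hs⟩, hxs⟩ := mem_iUnion.1 hx'
            have e1 : rep i x = s := hxs
            have e2 : rep i x = t := hx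
            exact hs (e1.symm.trans e2)
          · intro hx
            by_contra hne'
            exact hx (mem_iUnion.2 ⟨⟨rep i x, hne'⟩, rfl⟩)
        rw [this]
        exact (isOpen_iUnion fun s : {s : X // s ≠ t} => hclso i s.1).isClosed_compl
      · intro x hx
        exact ⟨rep i x, hx, rfl⟩
      · intro t
        rw [← indLT_iff_dd]
        by_cases hgt : gd (en i t m) ∧ bx (ch (en i t m) t) = b
        · refine indLT_subset (hO3 (ch (en i t m) t)) ?_
          rintro x ⟨hx, hxt⟩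
          have hxt' : rep i x = t := hxt
          have hx2 : x ∈ closure (G0 i m b) := by
            have := hx.2.1
            rwa [inter_univ] at this
          have hx3 := hloc i m b x hx2
          rw [hxt'] at hx3
          refine ⟨mem_univ _, ?_, fun hxO => ?_⟩
          · rw [inter_univ]
            exact (hAcl i m b t x hx3).2.1
          · exact hx.2.2 (mem_iUnion.2 ⟨t, hxt, hgt.1, hxO, hgt.2⟩)
        · have : relFr univ (G0 i m b) ∩ cls i t = ∅ := by
            ext x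
            simp only [mem_empty_iff_false, iff_false]
            rintro ⟨hx, hxt⟩
            have hxt' : rep i x = t := hxt
            have hx2 : x ∈ closure (G0 i m b) := by
              have := hx.2.1
              rwa [inter_univ] at this
            have hx3 := hloc i m b x hx2
            rw [hxt'] at hx3
            have := hAcl i m b t x hx3
            exact hgt ⟨this.1, this.2.2⟩
          rw [this]
          exact IndLT.mono' (Nat.zero_le n) (show (∅ : Set X) = ∅ from rfl))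
    (by
      intro j x hx
      have h1 := hAcl _ _ _ _ _ (hloc _ _ _ x hx)
      exact hO4 _ h1.2.2 x h1.2.1)
    (by
      intro j x hx
      have h1 := hAcl _ _ _ _ _ (hloc _ _ _ x hx)
      exact hO5 _ h1.2.2 x h1.2.1)
  refine ⟨O, hO, fun x hx => ⟨hFO hx, mem_univ x⟩, ?_, hOfr⟩
  rintro x ⟨hx, -⟩
  by_contra hxV
  exact hOT x hx hxV

end metric

end GM
end Pool.Agent.Lib.MP_10cfb2_gt
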