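import Pool.Agent.Lib.MP_10cfb2_gt.GMb

/-!
# MP_10cfb2_gt: small boundaries, games and the main theorem
-/

set_option autoImplicit false

namespace Pool.Agent.Lib.MP_10cfb2_gt
namespace GM

open Set Topology Filter CD

/-- Absolute `F_σδ` sets are closed hereditary. -/
theorem absFsd_closed {X : Type} [TopologicalSpace X] {S D : Set X} (h : AbsFsd S) (hD : D ⊆ S)
    (hcl : ∃ C : Set X, IsClosed C ∧ D = C ∩ S) : AbsFsd D := by
  obtain ⟨Y, mY, cY, e, C, he, hC, hr⟩ := h
  obtain ⟨E, hE, hDE⟩ := hcl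
  have hr' : range (fun x : D => e (inclusion hD x)) = e '' (Subtype.val ⁻¹' E) := by
    ext y
    constructor
    · rintro ⟨x, rfl⟩
      refine ⟨inclusion hD x, ?_, rfl⟩
      exact ((Set.ext_iff.1 hDE x.1).1 x.2).1
    · rintro ⟨x, hx, rfl⟩
      exact ⟨⟨x.1, (Set.ext_iff.1 hDE x.1).2 ⟨hx, x.2⟩⟩, rfl⟩
  have hEc : IsClosed (Subtype.val ⁻¹' E : Set S) := hE.preimage continuous_subtype_val
  refine ⟨Y, mY, cY, fun x => e (inclusion hD x),
    fun m k => C m k ∩ closure (e '' (Subtype.val ⁻¹' E)), he.comp (IsEmbedding.inclusion hD),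
    fun m k => (hC m k).inter isClosed_closure, ?_⟩
  rw [hr']
  ext y
  constructor
  · rintro ⟨x, hx, rfl⟩
    refine mem_iInter.2 fun m => ?_
    have hx' : e x ∈ ⋂ m, ⋃ k, C m k := by rw [← hr]; exact mem_range_self x
    obtain ⟨k, hk⟩ := mem_iUnion.1 (mem_iInter.1 hx' m)
    exact mem_iUnion.2 ⟨k, hk, subset_closure ⟨x, hx, rfl⟩⟩
  · intro hy
    have h1 : y ∈ closure (e '' (Subtype.val ⁻¹' E)) := by
      obtain ⟨k, hk⟩ := mem_iUnion.1 (mem_iInter.1 hy 0)
      exact hk.2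
    have h2 : y ∈ range e := by
      rw [hr]
      refine mem_iInter.2 fun m => ?_
      obtain ⟨k, hk⟩ := mem_iUnion.1 (mem_iInter.1 hy m)
      exact mem_iUnion.2 ⟨k, hk.1⟩
    obtain ⟨x, rfl⟩ := h2
    refine ⟨x, ?_, rfl⟩
    have h3 : x ∈ closure (Subtype.val ⁻¹' E : Set S) := by
      rw [he.isInducing.closure_eq_preimage_closure_image]
      exact h1
    rwa [hEc.closure_eq] at h3

/-- Completely metrizable subspaces are absolute `F_σδ`. -/
theorem absFsd_of_cm {X : Type} [TopologicalSpace X] {S : Set X}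
    (h : TopologicalSpace.IsCompletelyMetrizableSpace S) : AbsFsd S := by
  let m := TopologicalSpace.upgradeIsCompletelyMetrizable S
  exact ⟨S, m.toMetricSpace, m.toCompleteSpace, id, fun _ _ => univ, IsEmbedding.id,
    fun _ _ => isClosed_univ, by simp only [iUnion_const, iInter_const, range_id]⟩

/-- ONE wins on absolute `F_σδ` spaces with a gap of `Ind`. -/
theorem oneWins_of_abs {Z : Type} [TopologicalSpace Z] {Y : Type} [MetricSpace Y]
    [CompleteSpace Y] (e : Z → Y) (he : IsEmbedding e) (C : ℕ → ℕ → Set Y)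
    (hC : ∀ m k, IsClosed (C m k)) (hr : range e = ⋂ m, ⋃ k, C m k) (n : ℕ)
    (hgap : ∀ A : Set Z, IsClosed A → IndLT (n + 1) A → IndLT n A)
    (hbig : ¬ IndLT n (univ : Set Z)) : OneWins Z :=
  @oneWins_of_big Z (he.comapMetricSpace e) Y _ _ e he.to_isometry C hC hr n hgap hbig

/-- The same for a closed subspace. -/
theorem oneWins_sub {X : Type} [TopologicalSpace X] {D : Set X} (hD : IsClosed D)
    (h : AbsFsd D) (n : ℕ) (hgap : ∀ A : Set X, IsClosed A → IndLT (n + 1) A → IndLT n A)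
    (hbig : ¬ IndLT n D) : OneWins D := by
  obtain ⟨Y, mY, cY, e, C, he, hC, hr⟩ := h
  have hemb : IsEmbedding (Subtype.val : D → X) := IsEmbedding.subtypeVal
  refine oneWins_of_abs e he C hC hr n ?_ ?_
  · intro A hA h
    rw [← indLT_image hemb] at h ⊢
    exact hgap _ (hD.isClosedEmbedding_subtypeVal.isClosedMap A hA) h
  · intro h
    rw [← indLT_image hemb, image_univ, Subtype.range_coe] at h
    exact hbig h

section metric

variable {X : Type} [MetricSpace X]

/-- Every point has arbitrarily small neighbourhoods with boundary of `Ind < n`. -/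
def SB (n : ℕ) (D : Set X) : Prop :=
  ∀ x ∈ D, ∀ V : Set X, IsOpen V → x ∈ V →
    ∃ O : Set X, IsOpen O ∧ x ∈ O ∧ O ∩ D ⊆ V ∧ IndLT n (relFr D O)

theorem SB.mono {n : ℕ} {D D' : Set X} (h : SB n D) (hD : D' ⊆ D) : SB n D' := by
  intro x hx V hV hxV
  obtain ⟨O, hO, h1, h2, h3⟩ := h x (hD hx) V hV hxV
  refine ⟨O, hO, h1, fun y hy => h2 ⟨hy.1, hD hy.2⟩, indLT_subset h3 ?_⟩
  rintro y ⟨hy1, hy2, hy3⟩
  exact ⟨hD hy1, closure_mono (inter_subset_inter_right O hD) hy2, hy3⟩

/-- Reduction to small boundaries. -/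
theorem exists_small_base {n : ℕ} (hT : HasTrind (univ : Set X))
    (hbig : ¬ IndLT n (univ : Set X)) : ∃ D : Set X, IsClosed D ∧ ¬ IndLT n D ∧ SB n D := by
  by_contra hcon
  push Not at hcon
  apply hbig
  refine hT {B | IsClosed B → IndLT n B} ?_ isClosed_univ
  intro B hB hBc
  by_contra hBn
  apply hcon B hBc hBn
  intro x hx V hV hxV
  obtain ⟨O, hO, h1, h2, h3⟩ := hB x hx V hV hxV
  refine ⟨O, hO, h1, h2, h3 ?_⟩
  obtain ⟨E, hE, hEE⟩ := relFr_rc (A := B) hO
  rw [hEE]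
  exact hE.inter hBc

/-- Small boundaries in a subset of a completely paracompact subspace. -/
theorem indLT_of_sb {n : ℕ} {D S : Set X} (hSB : SB n D) (hS : CompPara S) (hD : D ⊆ S) :
    IndLT (n + 1) D := by
  obtain ⟨𝒰, hUo, hUc, hUf, hUb⟩ := hS
  have hemb : IsEmbedding (Subtype.val : D → X) := IsEmbedding.subtypeVal
  have hinc : IsEmbedding (inclusion hD) := IsEmbedding.inclusion hD
  have key : IndLT (n + 1) (univ : Set D) := by
    refine indLT_succ_of_cpara ?_ (fun i => (fun U => inclusion hD ⁻¹' U) '' 𝒰 i) ?_ ?_ ?_ ?_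
    · intro x V hV hxV
      obtain ⟨V', hV', rfl⟩ := hemb.isInducing.isOpen_iff.1 hV
      obtain ⟨O, hO, h1, h2, h3⟩ := hSB x.1 x.2 V' hV' hxV
      refine ⟨Subtype.val ⁻¹' O, hO.preimage continuous_subtype_val, h1,
        fun y hy => h2 ⟨hy, y.2⟩, ?_⟩
      rw [← indLT_image hemb, ← relFr_image hemb, image_univ, Subtype.range_coe]
      exact h3
    · rintro i _ ⟨U, hU, rfl⟩
      exact (hUo i U hU).preimage hinc.continuous
    · intro i
      rw [eq_univ_iff_forall]
      intro x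
      have hx : inclusion hD x ∈ ⋃₀ 𝒰 i := by rw [hUc]; exact mem_univ _
      obtain ⟨U, hU, hxU⟩ := hx
      exact ⟨_, ⟨U, hU, rfl⟩, hxU⟩
    · rintro i _ ⟨U, hU, rfl⟩
      refine ((hUf i U hU).image fun U => inclusion hD ⁻¹' U).subset ?_
      rintro _ ⟨⟨V, hV, rfl⟩, x, hx1, hx2⟩
      exact ⟨V, ⟨hV, inclusion hD x, hx1, hx2⟩, rfl⟩
    · intro x W hW hxW
      obtain ⟨W', hW', rfl⟩ := hinc.isInducing.isOpen_iff.1 hW
      obtain ⟨i, U, hU, h1, h2⟩ := hUb (inclusion hD x) W' hW' hxW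
      exact ⟨i, _, ⟨U, hU, rfl⟩, h1, preimage_mono h2⟩
  rw [← indLT_image hemb, image_univ, Subtype.range_coe] at key
  exact key

/-- The first part. -/
theorem main_game (F : ℕ → Set X) (hF : ∀ i, IsClosed (F i)) (hFcov : ⋃ i, F i = univ)
    (hFc : ∀ i, (∃ k, IndLT k (F i)) ∨ AbsFsd (F i)) (hinf : ∀ k, ¬ IndLT k (univ : Set X))
    (hgame : ¬ OneWins X) (n : ℕ) : ∃ A : Set X, IsClosed A ∧ IndLT (n + 1) A ∧ ¬ IndLT n A := by
  by_contra hcon
  push Not at hcon
  obtain ⟨i, hi⟩ := exists_big univ (hinf n) F hF (by rw [hFcov])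
  rw [inter_univ] at hi
  rcases hFc i with ⟨k, hk⟩ | h
  · exact hi (gap_all hcon k (F i) (hF i) hk)
  · exact hgame (oneWins_of_closed (hF i) (oneWins_sub (hF i) h n hcon hi))

/-- The second part. -/
theorem main_cd (B : ℕ → Set X) (hBcov : ⋃ i, B i = univ) (hB : ∀ i, ∃ k, IndLT k (B i)) :
    ¬ OneWins X := by
  obtain ⟨Z, hZ, hcov⟩ := exists_zd B hB (fun x => by
    have hx : x ∈ ⋃ i, B i := by rw [hBcov]; exact mem_univ x
    exact mem_iUnion.1 hx)
  exact not_oneWins Z hZ hcov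

/-- The part with small transfinite dimension and a game. -/
theorem main_trind_game (F : ℕ → Set X) (hF : ∀ i, IsClosed (F i)) (hFcov : ⋃ i, F i = univ)
    (hFc : ∀ i, (∃ k, IndLT k (F i)) ∨ CompPara (F i) ∨ AbsFsd (F i))
    (hT : HasTrind (univ : Set X)) (hinf : ∀ k, ¬ IndLT k (univ : Set X))
    (hgame : ¬ OneWins X) (n : ℕ) : ∃ A : Set X, IsClosed A ∧ IndLT (n + 1) A ∧ ¬ IndLT n A := by
  by_contra hcon
  push Not at hcon
  obtain ⟨D, hD, hDb, hSB⟩ := exists_small_base (n := n) hT (hinf n)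
  obtain ⟨i, hi⟩ := exists_big D hDb F hF (by rw [hFcov]; exact subset_univ D)
  have hcl : IsClosed (F i ∩ D) := (hF i).inter hD
  rcases hFc i with ⟨k, hk⟩ | h | h
  · exact hi (gap_all hcon k _ hcl (indLT_subset hk inter_subset_left))
  · exact hi (hcon _ hcl (indLT_of_sb (hSB.mono inter_subset_right) h inter_subset_left))
  · exact hgame (oneWins_of_closed hcl
      (oneWins_sub hcl (absFsd_closed h inter_subset_left ⟨D, hD, inter_comm _ _⟩) n hcon hi))

/-- The part with small transfinite dimension and a second cover. -/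
theorem main_trind (F B : ℕ → Set X) (hF : ∀ i, IsClosed (F i)) (hFcov : ⋃ i, F i = univ)
    (hFc : ∀ i, (∃ k, IndLT k (F i)) ∨ CompPara (F i) ∨ AbsFsd (F i))
    (hBcov : ⋃ i, B i = univ) (hB : ∀ i, (∃ k, IndLT k (B i)) ∨ CompPara (B i))
    (hT : HasTrind (univ : Set X)) (hinf : ∀ k, ¬ IndLT k (univ : Set X)) (n : ℕ) :
    ∃ A : Set X, IsClosed A ∧ IndLT (n + 1) A ∧ ¬ IndLT n A := by
  by_contra hcon
  push Not at hcon
  obtain ⟨D, hD, hDb, hSB⟩ := exists_small_base (n := n) hT (hinf n)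
  obtain ⟨i, hi⟩ := exists_big D hDb F hF (by rw [hFcov]; exact subset_univ D)
  have hcl : IsClosed (F i ∩ D) := (hF i).inter hD
  have hSB' : SB n (F i ∩ D) := hSB.mono inter_subset_right
  rcases hFc i with ⟨k, hk⟩ | h | h
  · exact hi (gap_all hcon k _ hcl (indLT_subset hk inter_subset_left))
  · exact hi (hcon _ hcl (indLT_of_sb hSB' h inter_subset_left))
  · have h1 : OneWins (F i ∩ D : Set X) :=
      oneWins_sub hcl (absFsd_closed h inter_subset_left ⟨D, hD, inter_comm _ _⟩) n hcon hi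
    have hemb : IsEmbedding (Subtype.val : (F i ∩ D : Set X) → X) := IsEmbedding.subtypeVal
    refine main_cd (X := (F i ∩ D : Set X)) (fun j => Subtype.val ⁻¹' (B j)) ?_ ?_ h1
    · rw [← preimage_iUnion, hBcov, preimage_univ]
    · intro j
      rcases hB j with ⟨k, hk⟩ | hk
      · refine ⟨k, (indLT_image hemb k _).1 ?_⟩
        rw [Subtype.image_preimage_coe]
        exact indLT_subset hk inter_subset_right
      · refine ⟨n + 1, (indLT_image hemb _ _).1 ?_⟩
        rw [Subtype.image_preimage_coe]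
        exact indLT_of_sb (hSB'.mono inter_subset_left) hk inter_subset_right

end metric

end GM
end Pool.Agent.Lib.MP_10cfb2_gt
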