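import Pool.Agent.Lib.MP_10cfb2_gt.GMc

/-!
# MP_10cfb2_gt: the nowhere finite-dimensional kernel of an example
-/

set_option autoImplicit false

namespace Pool.Agent.Lib.MP_10cfb2_gt
namespace GM

open Set Topology Filter CD

section kernel

variable {X : Type} [MetricSpace X]

/-- A relatively closed subset of `O ∩ Z` (`O` open, `Z` closed) all of whose closed subsets have
`Ind < n` has `Ind < n`. -/
theorem indLT_of_pieces {n : ℕ} {Z O E : Set X} (hZ : IsClosed Z) (hO : IsOpen O)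
    (hE : IsClosed E) (h : ∀ D : Set X, IsClosed D → D ⊆ E ∩ (O ∩ Z) → IndLT n D) :
    IndLT n (E ∩ (O ∩ Z)) := by
  obtain ⟨C, hC, hCO, hCU, -⟩ := hO.exists_iUnion_isClosed
  rw [indLT_iff_dd]
  refine dd_nat n _ (fun j => E ∩ (C j ∩ Z)) (fun j => ⟨E ∩ (C j ∩ Z),
    hE.inter ((hC j).inter hZ), ?_⟩) ?_ (fun j => ?_)
  · ext x
    simp only [mem_inter_iff]
    have := @hCO j x
    tauto
  · rintro x ⟨hx1, hx2, hx3⟩
    rw [← hCU] at hx2
    obtain ⟨j, hj⟩ := mem_iUnion.1 hx2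
    exact ⟨j, hx1, hj, hx3⟩
  · rw [← indLT_iff_dd]
    exact h _ (hE.inter ((hC j).inter hZ)) (fun x hx => ⟨hx.1, hCO j hx.2.1, hx.2.2⟩)

/-- The part of `B` which is locally of `Ind < n`, as a countable union of closed sets. -/
theorem exists_local {n : ℕ} {B : Set X} (hB : IsClosed B) (𝒪 : Set (Set X))
    (hO : ∀ O ∈ 𝒪, IsOpen O ∧ IndLT n (O ∩ B)) :
    ∃ A : ℕ → Set X, (∀ k, IsClosed (A k) ∧ IndLT n (A k)) ∧ ∀ x ∈ B, x ∈ ⋃₀ 𝒪 → ∃ k, x ∈ A k := by
  have hcov : ∀ k : ℕ, ∃ U F : X → Set X, (∀ s, IsOpen (U s)) ∧ LocallyFinite U ∧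
      (∀ s, U s ⊆ Metric.ball s (1 / ((k : ℝ) + 1))) ∧ (∀ s, IsClosed (F s)) ∧
      (∀ s, F s ⊆ U s) ∧ ⋃ s, F s = univ := fun k => exists_cover _ (by positivity)
  choose U F hU hlf hUb hF hFU hFc using hcov
  let S : ℕ → Set X := fun k => {s | ∃ O ∈ 𝒪, Metric.ball s (1 / ((k : ℝ) + 1)) ⊆ O}
  have hlf' : ∀ k, LocallyFinite (fun s : S k => F k s.1 ∩ B) := fun k =>
    ((hlf k).comp_injective Subtype.val_injective).subset
      (fun s x hx => hFU k s.1 hx.1)
  refine ⟨fun k => ⋃ s : S k, F k s.1 ∩ B, fun k => ⟨?_, ?_⟩, ?_⟩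
  · exact (hlf' k).isClosed_iUnion (fun s => (hF k s.1).inter hB)
  · rw [indLT_iff_dd]
    refine dd_lf n _ (fun s : S k => F k s.1 ∩ B) (hlf' k) (fun s => ⟨F k s.1 ∩ B,
      (hF k s.1).inter hB, ?_⟩) (fun x hx => mem_iUnion.1 hx) (fun s => ?_)
    · exact (inter_eq_left.2 (subset_iUnion (fun s : S k => F k s.1 ∩ B) s)).symm
    · rw [← indLT_iff_dd]
      obtain ⟨O, hO', hb⟩ := s.2
      refine indLT_subset (hO O hO').2 (inter_subset_inter_left B ?_)
      exact ((hFU k s.1).trans (hUb k s.1)).trans hb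
  · rintro x hxB ⟨O, hO', hxO⟩
    obtain ⟨ε, hε, hb⟩ := Metric.isOpen_iff.1 (hO O hO').1 x hxO
    obtain ⟨k, hk⟩ := exists_nat_one_div_lt (show (0 : ℝ) < ε / 2 by linarith)
    have hx : x ∈ ⋃ s, F k s := by rw [hFc k]; exact mem_univ x
    obtain ⟨s, hs⟩ := mem_iUnion.1 hx
    have hxs := hUb k s (hFU k s hs)
    rw [Metric.mem_ball] at hxs
    refine ⟨k, mem_iUnion.2 ⟨⟨s, O, hO', fun y hy => hb ?_⟩, hs, hxB⟩⟩
    rw [Metric.mem_ball] at hy ⊢
    have h1 := dist_triangle_right y x s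
    linarith

/-- The kernel: remove the part which is locally of finite `Ind`. -/
theorem exists_kernel {n : ℕ} {B : Set X} (hB : IsClosed B) (hinf : ∀ k, ¬ IndLT k B)
    (hgap : ∀ (k : ℕ) (A : Set X), IsClosed A → IndLT k A → IndLT n A) :
    ∃ Z : Set X, Z ⊆ B ∧ IsClosed Z ∧ (∀ k, ¬ IndLT k Z) ∧
      ∀ O : Set X, IsOpen O → (O ∩ Z).Nonempty → ∀ k, ¬ IndLT k (O ∩ Z) := by
  let 𝒪 : Set (Set X) := {O | IsOpen O ∧ IndLT n (O ∩ B)}
  obtain ⟨A, hA, hAc⟩ := exists_local hB 𝒪 (fun O hO => hO)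
  have hW : IsOpen (⋃₀ 𝒪) := isOpen_sUnion fun O hO => hO.1
  have hZ : IsClosed (B ∩ (⋃₀ 𝒪)ᶜ) := hB.inter hW.isClosed_compl
  have key : ∀ O : Set X, IsOpen O → ∀ k, IndLT k (O ∩ (B ∩ (⋃₀ 𝒪)ᶜ)) → IndLT n (O ∩ B) := by
    intro O hO k hk
    have h1 := indLT_of_pieces (n := n) hB hO isClosed_univ (by
      intro D hD hDs
      rw [univ_inter] at hDs
      rw [indLT_iff_dd]
      refine dd_nat n D (fun j => Nat.casesOn j (D ∩ (B ∩ (⋃₀ 𝒪)ᶜ)) (fun i => D ∩ A i)) ?_ ?_ ?_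
      · intro j
        cases j with
        | zero => exact ⟨D ∩ (B ∩ (⋃₀ 𝒪)ᶜ), hD.inter hZ, (inter_eq_left.2 inter_subset_left).symm⟩
        | succ i => exact ⟨D ∩ A i, hD.inter (hA i).1, (inter_eq_left.2 inter_subset_left).symm⟩
      · intro x hx
        by_cases hxW : x ∈ ⋃₀ 𝒪
        · obtain ⟨i, hi⟩ := hAc x (hDs hx).2 hxW
          exact ⟨i + 1, hx, hi⟩
        · exact ⟨0, hx, (hDs hx).2, hxW⟩
      · intro j
        rw [← indLT_iff_dd]
        cases j with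
        | zero =>
          refine hgap k _ (hD.inter hZ) (indLT_subset hk ?_)
          exact fun x hx => ⟨(hDs hx.1).1, hx.2⟩
        | succ i => exact indLT_subset (hA i).2 inter_subset_right)
    rw [univ_inter] at h1
    exact h1
  refine ⟨B ∩ (⋃₀ 𝒪)ᶜ, inter_subset_left, hZ, ?_, ?_⟩
  · intro k hk
    have h := key univ isOpen_univ k (by rw [univ_inter]; exact hk)
    rw [univ_inter] at h
    exact hinf n h
  · rintro O hO ⟨x, hxO, hxB, hxW⟩ k hk
    exact hxW ⟨O, ⟨hO, key O hO k hk⟩, hxO⟩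

/-- The dichotomy for the locally closed subspaces of a space of finite type. -/
theorem piece {n : ℕ} (hgap1 : ∀ A : Set X, IsClosed A → IndLT (n + 1) A → IndLT n A) {Z : Set X}
    (hZ : IsClosed Z) (hSBZ : SB n Z) {E O : Set X} (hE : IsClosed E) (hO : IsOpen O) :
    IndLT n (E ∩ (O ∩ Z)) ∨ ((∀ k, ¬ IndLT k (E ∩ (O ∩ Z))) ∧ ¬ CompPara (E ∩ (O ∩ Z)) ∧
      (AbsFsd (E ∩ (O ∩ Z)) → OneWins ↥(E ∩ (O ∩ Z)))) := by
  have hgap := gap_all hgap1
  by_cases hbig : IndLT n (E ∩ (O ∩ Z))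
  · exact Or.inl hbig
  · right
    -- it would be enough to have finite `Ind` for its closed subsets
    have hfin : ¬ ∀ A : Set X, IsClosed A → A ⊆ E ∩ (O ∩ Z) → ∃ k, IndLT k A := fun h =>
      hbig (indLT_of_pieces hZ hO hE (fun A hA hAs => by
        obtain ⟨k, hk⟩ := h A hA hAs
        exact hgap k A hA hk))
    refine ⟨fun k hk => hfin (fun A _ hAs => ⟨k, indLT_subset hk hAs⟩), fun h2 =>
      hfin (fun A _ hAs => ⟨n + 1, indLT_of_sb (hSBZ.mono (fun x hx => (hAs hx).2.2)) h2 hAs⟩), ?_⟩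
    intro habs
    -- the piece as a space
    have hemb : IsEmbedding (Subtype.val : ↥(E ∩ (O ∩ Z)) → X) := IsEmbedding.subtypeVal
    obtain ⟨Y, mY, cY, e, C, he, hC, hr⟩ := habs
    refine oneWins_of_abs e he C hC hr n ?_ ?_
    · rintro A hA hA1
      rw [← indLT_image hemb] at hA1 ⊢
      obtain ⟨E', hE', rfl⟩ := isClosed_induced_iff.1 hA
      have him : Subtype.val '' (Subtype.val ⁻¹' E' : Set ↥(E ∩ (O ∩ Z))) =
          (E' ∩ E) ∩ (O ∩ Z) := by
        rw [Subtype.image_preimage_coe]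
        ext x
        simp only [mem_inter_iff]
        tauto
      rw [him] at hA1 ⊢
      exact indLT_of_pieces hZ hO (hE'.inter hE)
        (fun A' hA' hs => hgap (n + 1) A' hA' (indLT_subset hA1 hs))
    · intro h
      rw [← indLT_image hemb, image_univ, Subtype.range_coe] at h
      exact hbig h

/-- Small boundaries in a separable subset. -/
theorem indLT_of_countable {n : ℕ} {D : Set X} (hSB : SB n D) {t : Set X} (ht : t.Countable)
    (hD : D ⊆ closure t) : IndLT (n + 1) D := by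
  classical
  rcases D.eq_empty_or_nonempty with h0 | h0
  · exact IndLT.mono' (Nat.zero_le _) (show IndLT 0 D from h0)
  haveI : Nonempty D := h0.to_subtype
  have hsep : TopologicalSpace.IsSeparable D := ht.isSeparable.closure.mono hD
  haveI := hsep.secondCountableTopology
  have hLin : IsLindelof D := isLindelof_iff_LindelofSpace.2 inferInstance
  have hch : ∀ (m : ℕ) (x : D), ∃ O : Set X, IsOpen O ∧ x.1 ∈ O ∧
      O ∩ D ⊆ Metric.ball x.1 (1 / ((m : ℝ) + 1)) ∧ IndLT n (relFr D O) := fun m x =>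
    hSB x.1 x.2 _ Metric.isOpen_ball (Metric.mem_ball_self (by positivity))
  choose O hO hxO hOb hOI using hch
  have hcov : ∀ m, ∃ f : ℕ → D, D ⊆ ⋃ j, O m (f j) := fun m =>
    hLin.indexed_countable_subcover (O m) (hO m) (fun x hx => mem_iUnion.2 ⟨⟨x, hx⟩, hxO m ⟨x, hx⟩⟩)
  choose f hf using hcov
  obtain ⟨G, hG⟩ : ∃ G : ℕ → Set X, ∀ i, G i = O i.unpair.1 (f i.unpair.1 i.unpair.2) :=
    ⟨_, fun _ => rfl⟩
  have hGo : ∀ i, IsOpen (G i) := fun i => by rw [hG]; exact hO _ _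
  obtain ⟨R, hR⟩ : ∃ R : Set X, R = ⋃ i, relFr D (G i) := ⟨_, rfl⟩
  have hRD : ∀ x ∈ R, x ∈ D := by
    intro x hx
    rw [hR] at hx
    obtain ⟨i, hi⟩ := mem_iUnion.1 hx
    exact hi.1
  have hRi : ∀ i, relFr D (G i) ⊆ R := fun i => by
    rw [hR]
    exact subset_iUnion (fun i => relFr D (G i)) i
  have hdd : DD n R := by
    refine dd_nat n R (fun i => relFr D (G i)) (fun i => ⟨closure (G i ∩ D) ∩ (G i)ᶜ,
      isClosed_closure.inter (hGo i).isClosed_compl, ?_⟩) ?_ (fun i => ?_)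
    · ext x
      constructor
      · intro hx
        exact ⟨⟨hx.2.1, hx.2.2⟩, hRi i hx⟩
      · rintro ⟨⟨h1, h2⟩, h3⟩
        exact ⟨hRD x h3, h1, h2⟩
    · intro x hx
      rw [hR] at hx
      exact mem_iUnion.1 hx
    · rw [← indLT_iff_dd, hG]
      exact hOI _ _
  obtain ⟨g, hg, hz⟩ := hdd
  rw [indLT_iff_dd]
  refine ⟨fun x => if x ∈ R then g x else n, ?_, ?_⟩
  · intro x _
    by_cases h : x ∈ R
    · have := hg x h
      simp only [h, if_true]
      omega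
    · simp only [h, if_false]
      omega
  · intro j
    by_cases hj : j < n
    · refine zd_subset (hz j) ?_
      rintro x ⟨hx, hxj⟩
      by_cases h : x ∈ R
      · simp only [h, if_true] at hxj
        exact ⟨h, hxj⟩
      · simp only [h, if_false] at hxj
        omega
    · have hz0 : ZD (D \ R) := by
        refine zd_of_base (ι := Unit) (D \ R) (fun i _ => G i) (fun i _ => hGo i)
          (fun i => locallyFinite_of_finite _) ?_ ?_
        · intro i _ x hx hxc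
          by_contra hxG
          exact hx.2 (hRi i ⟨hx.1, closure_mono (inter_subset_inter_right _ diff_subset) hxc, hxG⟩)
        · intro x hx V hV hxV
          obtain ⟨ε, hε, hb⟩ := Metric.isOpen_iff.1 hV x hxV
          obtain ⟨m, hm⟩ := exists_nat_one_div_lt (show (0 : ℝ) < ε / 2 by linarith)
          obtain ⟨j, hj⟩ := mem_iUnion.1 (hf m hx.1)
          refine ⟨Nat.pair m j, (), ?_, ?_⟩
          · show x ∈ G (Nat.pair m j)
            rw [hG, Nat.unpair_pair]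
            exact hj
          · intro y hy hyG
            have hyG' : y ∈ G (Nat.pair m j) := hyG
            rw [hG, Nat.unpair_pair] at hyG'
            have h1 := hOb m (f m j) ⟨hyG', hy.1⟩
            have h2 := hOb m (f m j) ⟨hj, hx.1⟩
            rw [Metric.mem_ball] at h1 h2
            apply hb
            rw [Metric.mem_ball]
            have h3 := dist_triangle_right y x (f m j).1
            linarith
      refine zd_subset hz0 ?_
      rintro x ⟨hx, hxj⟩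
      refine ⟨hx, fun h => ?_⟩
      have := hg x h
      simp only [h, if_true] at hxj
      omega

/-- Dense subsets of subsets. -/
theorem exists_dense_le {Z t : Set X} (h : Z ⊆ closure t) :
    ∃ t' ⊆ Z, Cardinal.mk t' ≤ max (Cardinal.mk t) Cardinal.aleph0 ∧ Z ⊆ closure t' := by
  let J : Set (t × ℕ) := {p | (Metric.ball p.1.1 (1 / ((p.2 : ℝ) + 1)) ∩ Z).Nonempty}
  have hJ : ∀ p : J, ∃ z, z ∈ Metric.ball p.1.1.1 (1 / ((p.1.2 : ℝ) + 1)) ∩ Z := fun p => p.2
  choose z hz using hJ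
  refine ⟨range z, ?_, ?_, ?_⟩
  · rintro _ ⟨p, rfl⟩
    exact (hz p).2
  · refine Cardinal.mk_range_le.trans ?_
    refine (Cardinal.mk_set_le J).trans ?_
    rw [Cardinal.mk_prod, Cardinal.lift_id, Cardinal.lift_id, Cardinal.mk_nat]
    exact Cardinal.mul_le_max_of_aleph0_le_right le_rfl
  · intro x hx
    rw [Metric.mem_closure_iff]
    intro ε hε
    obtain ⟨m, hm⟩ := exists_nat_one_div_lt (show (0 : ℝ) < ε / 2 by linarith)
    obtain ⟨a, ha, hxa⟩ := Metric.mem_closure_iff.1 (h hx) (1 / ((m : ℝ) + 1)) (by positivity)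
    have hp : (⟨⟨a, ha⟩, m⟩ : t × ℕ) ∈ J := ⟨x, by rw [Metric.mem_ball]; exact hxa, hx⟩
    refine ⟨z ⟨_, hp⟩, mem_range_self _, ?_⟩
    have h1 := (hz ⟨_, hp⟩).1
    rw [Metric.mem_ball] at h1
    have h2 := dist_triangle_right x (z ⟨_, hp⟩) a
    linarith

/-- The main theorem on the kernel. -/
theorem main_nowhere (n : ℕ) (hex : Example n (univ : Set X)) :
    ∃ Z : Set X, IsClosed Z ∧ FiniteExample n Z ∧
      (∀ E O : Set X, IsClosed E → IsOpen O → IndLT n (E ∩ (O ∩ Z)) ∨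
        ((∀ k, ¬ IndLT k (E ∩ (O ∩ Z))) ∧ ¬ CompPara (E ∩ (O ∩ Z)) ∧
          (AbsFsd (E ∩ (O ∩ Z)) → OneWins ↥(E ∩ (O ∩ Z))))) ∧
      (∀ O : Set X, IsOpen O → (O ∩ Z).Nonempty →
        ∀ F : ℕ → Set X, (∀ i, IsClosed (F i)) → O ∩ Z ⊆ ⋃ i, F i →
          ∃ i, ¬ IndLT n (F i ∩ (O ∩ Z))) ∧
      ∃ κ : Cardinal, Cardinal.aleph0 < κ ∧ (∃ t ⊆ Z, Cardinal.mk t = κ ∧ Z ⊆ closure t) ∧
        ∀ s : Set X, Cardinal.mk s < κ → IndLT n (closure s ∩ Z) := by
  obtain ⟨hT, hinf, hno⟩ := hex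
  have hgap1 : ∀ A : Set X, IsClosed A → IndLT (n + 1) A → IndLT n A := by
    intro A hA h1
    by_contra h2
    exact hno A (subset_univ A) ⟨A, hA, by rw [inter_univ]⟩ ⟨h1, h2⟩
  have hgap := gap_all hgap1
  obtain ⟨D₀, hD₀, hD₀b, hSB₀⟩ := exists_small_base (n := n) hT (hinf n)
  -- a closed subspace of infinite `Ind` with the least weight
  let 𝒦 : Set Cardinal := {c | ∃ D ⊆ D₀, IsClosed D ∧ ¬ IndLT n D ∧
    ∃ t : Set X, Cardinal.mk t = c ∧ D ⊆ closure t}
  have h𝒦 : 𝒦.Nonempty := ⟨_, D₀, Subset.rfl, hD₀, hD₀b, univ, rfl, by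
    rw [closure_univ]
    exact subset_univ _⟩
  obtain ⟨κ, hκ⟩ : ∃ κ, κ = sInf 𝒦 := ⟨_, rfl⟩
  have hκ1 : κ ∈ 𝒦 := by
    rw [hκ]
    exact csInf_mem h𝒦
  have hκ2 : ∀ c ∈ 𝒦, κ ≤ c := fun c hc => by
    rw [hκ]
    exact csInf_le' hc
  obtain ⟨D, hDD₀, hD, hDb, t, ht, hDt⟩ := hκ1
  have hSB : SB n D := hSB₀.mono hDD₀
  obtain ⟨Z, hZD, hZ, hZi, hZn⟩ := exists_kernel (n := n) hD
    (fun k hk => hDb (hgap k D hD hk)) hgap
  have hSBZ : SB n Z := hSB.mono hZD
  have hunc : Cardinal.aleph0 < κ := by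
    by_contra h
    push Not at h
    rw [← ht, Cardinal.le_aleph0_iff_set_countable] at h
    exact hDb (hgap1 D hD (indLT_of_countable hSB h hDt))
  have hsmall : ∀ s : Set X, Cardinal.mk s < κ → IndLT n (closure s ∩ Z) := by
    intro s hs
    by_contra h
    exact absurd (hκ2 _ ⟨closure s ∩ Z, (inter_subset_right.trans hZD).trans hDD₀,
      isClosed_closure.inter hZ, h, s, rfl, inter_subset_left⟩) (not_le.2 hs)
  refine ⟨Z, hZ, ⟨hSBZ, hZi, ?_⟩, fun E O hE hO => piece hgap1 hZ hSBZ hE hO, ?_,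
    κ, hunc, ?_, hsmall⟩
  · rintro A hA ⟨C, hC, rfl⟩ k hk
    exact hgap k _ (hC.inter hZ) hk
  · intro O hO hne F hF hcov
    by_contra hcon
    push Not at hcon
    refine hZn O hO hne n ?_
    rw [indLT_iff_dd]
    refine dd_nat n _ (fun i => F i ∩ (O ∩ Z)) (fun i => ⟨F i, hF i, rfl⟩) ?_
      (fun i => (indLT_iff_dd _ _).1 (hcon i))
    intro x hx
    obtain ⟨i, hi⟩ := mem_iUnion.1 (hcov hx)
    exact ⟨i, hi, hx⟩
  · obtain ⟨t', ht'Z, ht'c, hZt'⟩ := exists_dense_le (hZD.trans hDt)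
    refine ⟨t', ht'Z, le_antisymm ?_ ?_, hZt'⟩
    · rw [ht, max_eq_left hunc.le] at ht'c
      exact ht'c
    · by_contra h
      push Not at h
      have h1 := hsmall t' h
      rw [inter_eq_right.2 hZt'] at h1
      exact hZi n h1

end kernel

/-- Every space of finite type is an example. -/
theorem example_of_finite {X : Type} [MetricSpace X] {n : ℕ} {A : Set X}
    (h : FiniteExample n A) : Example n A := by
  obtain ⟨hbase, hinf, hgap⟩ := h
  refine ⟨?_, hinf, ?_⟩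
  · -- spaces of finite large inductive dimension have small transfinite dimension
    have hfin : ∀ (k : ℕ) (B : Set X), IndLT k B → ∀ T : Set (Set X),
        (∀ B : Set X, (∀ x ∈ B, ∀ V : Set X, IsOpen V → x ∈ V →
          ∃ O : Set X, IsOpen O ∧ x ∈ O ∧ O ∩ B ⊆ V ∧ relFr B O ∈ T) → B ∈ T) → B ∈ T := by
      intro k
      induction k with
      | zero =>
        intro B hB T hT
        have hB' : B = ∅ := hB
        apply hT
        intro x hx
        rw [hB'] at hx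
        exact hx.elim
      | succ k ih =>
        intro B hB T hT
        apply hT
        intro x hx V hV hxV
        obtain ⟨O, hO, h1, h2, h3⟩ := hB ({x} ∩ B) (V ∩ B)
          (by
            rintro y ⟨hy, hyB⟩
            rw [Set.mem_singleton_iff] at hy
            exact ⟨by rw [hy]; exact hxV, hyB⟩)
          ⟨{x}, isClosed_singleton, rfl⟩ ⟨V, hV, rfl⟩
        exact ⟨O, hO, (h1 ⟨rfl, hx⟩).1, fun y hy => (h2 hy).1, ih _ h3 T hT⟩
    intro T hT
    apply hT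
    intro x hx V hV hxV
    obtain ⟨O, hO, h1, h2, h3⟩ := hbase x hx V hV hxV
    exact ⟨O, hO, h1, h2, hfin n _ h3 T hT⟩
  · intro B hBA hB h
    exact h.2 (hgap B hBA hB _ h.1)

end GM
end Pool.Agent.Lib.MP_10cfb2_gt
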