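import Pool.Agent.Lib.MP_10cfb2_gt.GDefs

/-!
# MP_10cfb2_gt: metric spaces without closed copies of the rationals and their F-sigma-delta subsets
-/

set_option autoImplicit false

namespace Pool.Agent.Lib.MP_10cfb2_gt

/-- Every nonempty countable closed subset of `Y` has an isolated point. (For metric spaces this says
that `Y` has no closed subspace homeomorphic to the rationals, equivalently that all closed
subspaces of `Y` are Baire spaces.) -/
def NoRat (Y : Type) [TopologicalSpace Y] : Prop :=
  ∀ D : Set Y, IsClosed D → D.Countable → D.Nonempty → ∃ x ∈ D, x ∉ closure (D \ {x})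

/-- The subspace `S` is homeomorphic to a countable intersection of countable unions of closed
subsets of a metric space `Y` with the property `NoRat`. -/
def RelFsd {X : Type} [TopologicalSpace X] (S : Set X) : Prop :=
  ∃ (Y : Type) (_ : MetricSpace Y) (e : S → Y) (C : ℕ → ℕ → Set Y), NoRat Y ∧
    Topology.IsEmbedding e ∧ (∀ m k, IsClosed (C m k)) ∧ Set.range e = ⋂ m, ⋃ k, C m k

end Pool.Agent.Lib.MP_10cfb2_gt
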