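import Pool.Agent.Lib.MP_10cfb2_gt.GMd
import Pool.Agent.Lib.MP_10cfb2_gt.HDefs

/-!
# MP_10cfb2_gt: closed copies of the rationals in countable-dimensional examples
-/

set_option autoImplicit false

namespace Pool.Agent.Lib.MP_10cfb2_gt
namespace GM

open Set Topology Filter CD

/-- A tree of sets which never meet along a branch gives a countable closed set without isolated
points. The node `k :: s` is a child of the node `s`. -/
theorem exists_rat {Y : Type} [MetricSpace Y] (Good : ℕ → Set Y → Prop) (h0 : ∃ S, Good 0 S)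
    (hne : ∀ m S, Good m S → S.Nonempty)
    (hstep : ∀ m S, Good m S → ∀ y ∈ S, ∀ ε : ℝ, 0 < ε →
      ∃ S', S' ⊆ S ∧ S' ⊆ Metric.ball y ε ∧ y ∉ S' ∧ Good (m + 1) S')
    (hlim : ∀ S : ℕ → Set Y, (∀ m, Good m (S m)) → ∀ y, ∃ m, y ∉ closure (S m)) :
    ∃ D : Set Y, IsClosed D ∧ D.Countable ∧ D.Nonempty ∧ ∀ y ∈ D, y ∈ closure (D \ {y}) := by
  classical
  choose pt hpt using hne
  choose nx nx1 nx2 nx3 nx4 using hstep
  -- the states
  obtain ⟨S₀, hS₀⟩ := h0
  let step : ∀ (m : ℕ), {S : Set Y // Good m S} → ℕ → {S : Set Y // Good (m + 1) S} :=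
    fun m S k => ⟨nx m S.1 S.2 (pt m S.1 S.2) (hpt m S.1 S.2) (1 / ((k : ℝ) + 1))
      Nat.one_div_pos_of_nat, nx4 _ _ _ _ _ _ _⟩
  let st : ∀ s : List ℕ, {S : Set Y // Good s.length S} := fun s =>
    List.rec (motive := fun s => {S : Set Y // Good s.length S}) ⟨S₀, hS₀⟩
      (fun k s S => step s.length S k) s
  let x : List ℕ → Y := fun s => pt s.length (st s).1 (st s).2
  have hx : ∀ s, x s ∈ (st s).1 := fun s => hpt _ _ _
  have hst : ∀ k s, st (k :: s) = step s.length (st s) k := fun k s => rfl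
  have h1 : ∀ k s, (st (k :: s)).1 ⊆ (st s).1 := fun k s => nx1 _ _ _ _ _ _ _
  have h2 : ∀ k s, (st (k :: s)).1 ⊆ Metric.ball (x s) (1 / ((k : ℝ) + 1)) := fun k s =>
    nx2 _ _ _ _ _ _ _
  have h3 : ∀ k s, x s ∉ (st (k :: s)).1 := fun k s => nx3 _ _ _ _ _ _ _
  -- the points below a node
  let Dn : List ℕ → Set Y := fun s => {y | ∃ t : List ℕ, y = x (t ++ s)}
  have hsub : ∀ s t : List ℕ, (st (t ++ s)).1 ⊆ (st s).1 := by
    intro s t
    induction t with
    | nil => exact Subset.rfl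
    | cons k t ih => exact (h1 k (t ++ s)).trans ih
  have hDn : ∀ s, Dn s ⊆ (st s).1 := by
    rintro s _ ⟨t, rfl⟩
    exact hsub s t (hx _)
  have hsplit : ∀ s, Dn s ⊆ {x s} ∪ ⋃ k, Dn (k :: s) := by
    rintro s _ ⟨t, rfl⟩
    rcases List.eq_nil_or_concat t with rfl | ⟨t', k, rfl⟩
    · exact Or.inl rfl
    · right
      refine mem_iUnion.2 ⟨k, t', ?_⟩
      rw [List.concat_eq_append, List.append_assoc]
      rfl
  refine ⟨range x, ?_, countable_range x, ⟨x [], mem_range_self _⟩, ?_⟩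
  · -- closed
    rw [← closure_subset_iff_isClosed]
    intro y hy
    by_contra hyD
    have hroot : y ∈ closure (Dn []) := by
      refine closure_mono ?_ hy
      rintro _ ⟨s, rfl⟩
      exact ⟨s, by rw [List.append_nil]⟩
    have hnext : ∀ s, y ∈ closure (Dn s) → ∃ k, y ∈ closure (Dn (k :: s)) := by
      intro s hs
      have hd : 0 < dist y (x s) := by
        rw [dist_pos]
        rintro rfl
        exact hyD (mem_range_self s)
      obtain ⟨K, hK⟩ := exists_nat_one_div_lt (show (0 : ℝ) < dist y (x s) / 2 by linarith)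
      have hs' : Dn s ⊆ (Metric.closedBall (x s) (dist y (x s) / 2)) ∪
          ⋃ k ∈ Finset.range K, Dn (k :: s) := by
        intro z hz
        rcases hsplit s hz with hz | hz
        · left
          rw [mem_singleton_iff] at hz
          rw [hz, Metric.mem_closedBall, dist_self]
          linarith
        · obtain ⟨k, hk⟩ := mem_iUnion.1 hz
          by_cases hkK : k < K
          · right
            exact mem_biUnion (Finset.mem_coe.2 (Finset.mem_range.2 hkK)) hk
          · left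
            have hb := h2 k s (hDn _ hk)
            rw [Metric.mem_ball] at hb
            rw [Metric.mem_closedBall]
            have h4 : (1 : ℝ) / ((k : ℝ) + 1) ≤ 1 / ((K : ℝ) + 1) := by
              apply one_div_le_one_div_of_le
              · positivity
              · have : (K : ℝ) ≤ k := by exact_mod_cast not_lt.1 hkK
                linarith
            linarith
      have hcl := closure_mono hs' hs
      rw [closure_union, Metric.isClosed_closedBall.closure_eq] at hcl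
      rcases hcl with hcl | hcl
      · rw [Metric.mem_closedBall] at hcl
        linarith
      · have hfin : closure (⋃ k ∈ Finset.range K, Dn (k :: s)) =
            ⋃ k ∈ Finset.range K, closure (Dn (k :: s)) :=
          (Finset.range K).finite_toSet.closure_biUnion _
        rw [hfin] at hcl
        obtain ⟨k, hk⟩ := mem_iUnion.1 hcl
        obtain ⟨-, hk⟩ := mem_iUnion.1 hk
        exact ⟨k, hk⟩
    choose! nk hnk using hnext
    let b : ℕ → List ℕ := fun m => Nat.rec [] (fun _ s => nk s :: s) m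
    have hb : ∀ m, y ∈ closure (Dn (b m)) ∧ (b m).length = m := by
      intro m
      induction m with
      | zero => exact ⟨hroot, rfl⟩
      | succ m ih => exact ⟨hnk _ ih.1, by show (nk (b m) :: b m).length = m + 1; simp [ih.2]⟩
    obtain ⟨m, hm⟩ := hlim (fun m => (st (b m)).1) (fun m => by
      show Good m (st (b m)).1
      have h : Good (b m).length (st (b m)).1 := (st (b m)).2
      generalize (st (b m)).1 = T at h ⊢
      rw [(hb m).2] at h
      exact h) y
    exact hm (closure_mono (hDn _) (hb m).1)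
  · -- crowded
    rintro _ ⟨s, rfl⟩
    rw [Metric.mem_closure_iff]
    intro ε hε
    obtain ⟨k, hk⟩ := exists_nat_one_div_lt hε
    refine ⟨x (k :: s), ⟨mem_range_self _, ?_⟩, ?_⟩
    · rw [mem_singleton_iff]
      intro h
      have := hx (k :: s)
      rw [h] at this
      exact h3 k s this
    · have := h2 k s (hx (k :: s))
      rw [Metric.mem_ball, dist_comm] at this
      linarith

section step

variable {X : Type} [MetricSpace X]

/-- A partition which misses a zero-dimensional set. -/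
theorem exists_part {A B W : Set X} (hA : IsClosed A) (hB : IsClosed B) (hAB : Disjoint A B)
    (hW : ZD W) : ∃ L : Set X, IsPartition A B L ∧ ∀ x ∈ L, x ∉ W := by
  obtain ⟨O, hO, e1, e2, e3⟩ := part A B W
    (fun x hx hx' => disjoint_left.1 hAB (hA.closure_subset hx) hx')
    (fun x hx hx' => disjoint_left.1 hAB hx (hB.closure_subset hx')) hW
    (fun x _ hx hx' => disjoint_left.1 hAB (hA.closure_subset hx) (hB.closure_subset hx'))
  refine ⟨(O ∪ (closure O)ᶜ)ᶜ, ⟨O, (closure O)ᶜ, hO, isClosed_closure.isOpen_compl, e1,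
    fun x hx hx' => e2 x hx' hx, ?_, rfl⟩, ?_⟩
  · rw [disjoint_left]
    intro x hx hx'
    exact hx' (subset_closure hx)
  · intro x hx hxZ
    rw [mem_compl_iff, mem_union, not_or, mem_compl_iff, not_not] at hx
    exact hx.1 (e3 x hxZ hx.2)

theorem isClosed_partition {A B L : Set X} (h : IsPartition A B L) : IsClosed L := by
  obtain ⟨U, V, hU, hV, -, -, -, rfl⟩ := h
  exact (hU.union hV).isClosed_compl

theorem indLT_one {A : Set X} (h : A.Subsingleton) : IndLT 1 A := by
  rintro F V hFV ⟨C, hC, hFC⟩ -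
  by_cases hF : F.Nonempty
  · obtain ⟨y, hy⟩ := hF
    refine ⟨univ, isOpen_univ, ?_, ?_, ?_⟩
    · intro x hx
      refine ⟨mem_univ x, ?_⟩
      rw [hFC] at hx
      exact hx.2
    · rintro x ⟨-, hx⟩
      have hyA : y ∈ A := by
        rw [hFC] at hy
        exact hy.2
      rw [h hx hyA]
      exact hFV hy
    · show relFr A univ = ∅
      ext x
      simp [relFr]
  · rw [not_nonempty_iff_eq_empty] at hF
    refine ⟨∅, isOpen_empty, ?_, ?_, ?_⟩
    · rw [hF]
      exact empty_subset _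
    · rw [empty_inter]
      exact empty_subset _
    · show relFr A ∅ = ∅
      ext x
      simp [relFr]

/-- One step: a smaller closed set which misses `W` and lies in one of the sets `E k`. -/
theorem exists_smaller {n : ℕ} (hgap1 : ∀ A : Set X, IsClosed A → IndLT (n + 1) A → IndLT n A)
    {Z W O : Set X} (hZ : IsClosed Z)
    (hZn : ∀ O : Set X, IsOpen O → (O ∩ Z).Nonempty → ∀ k, ¬ IndLT k (O ∩ Z)) (hW : ZD W)
    (hO : IsOpen O) {x : X} (hxO : x ∈ O) (hxZ : x ∈ Z) (E : ℕ → Set X)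
    (hE : ∀ k, IsClosed (E k)) (hEZ : Z ⊆ ⋃ k, E k) :
    ∃ Z' : Set X, IsClosed Z' ∧ Z' ⊆ O ∩ Z ∧ x ∉ Z' ∧ (∀ k, ¬ IndLT k Z') ∧
      (∀ O : Set X, IsOpen O → (O ∩ Z').Nonempty → ∀ k, ¬ IndLT k (O ∩ Z')) ∧
      (∀ x ∈ Z', x ∉ W) ∧ ∃ k, Z' ⊆ E k := by
  have hgap := gap_all hgap1
  -- another point
  obtain ⟨x', hx', hxx⟩ : ∃ x' ∈ O ∩ Z, x' ≠ x := by
    by_contra hcon
    push Not at hcon
    refine hZn O hO ⟨x, hxO, hxZ⟩ 1 (indLT_one ?_)
    intro a ha b hb
    rw [hcon a ha, hcon b hb]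
  obtain ⟨r, hr, hrO⟩ := Metric.isOpen_iff.1 hO x' hx'.1
  have hd : 0 < dist x' x := dist_pos.2 hxx
  obtain ⟨ρ, hρ, hρr, hρd⟩ : ∃ ρ : ℝ, 0 < ρ ∧ ρ < r ∧ ρ < dist x' x := by
    refine ⟨min r (dist x' x) / 2, ?_, ?_, ?_⟩
    · have := lt_min hr hd
      linarith
    · have := min_le_left r (dist x' x)
      have := lt_min hr hd
      linarith
    · have := min_le_right r (dist x' x)
      have := lt_min hr hd
      linarith
  have hZ1 : IsClosed (Metric.closedBall x' ρ ∩ Z) := Metric.isClosed_closedBall.inter hZ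
  have hZ1b : ¬ IndLT n (Metric.closedBall x' ρ ∩ Z) := by
    intro h
    refine hZn _ Metric.isOpen_ball ⟨x', Metric.mem_ball_self hρ, hx'.2⟩ n (indLT_subset h ?_)
    exact inter_subset_inter_left Z Metric.ball_subset_closedBall
  obtain ⟨k, hk⟩ := exists_big _ hZ1b E hE (inter_subset_right.trans hEZ)
  obtain ⟨p, ⟨hp1, hp2, hp3⟩, hp4⟩ := exists_pair hgap1 _ ((hE k).inter hZ1) hk
  obtain ⟨L, hL, hLW⟩ := exists_part hp1 hp2 hp3 hW
  have hLc := isClosed_partition hL
  have hbig := hp4 L hL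
  obtain ⟨Z', h1, h2, h3, h4⟩ := exists_kernel (n := n) (((hE k).inter hZ1).inter hLc)
    (fun k' hk' => hbig (hgap k' _ (((hE k).inter hZ1).inter hLc) hk')) hgap
  refine ⟨Z', h2, ?_, ?_, h3, h4, ?_, k, ?_⟩
  · intro z hz
    have hz' := (h1 hz).1.2
    refine ⟨hrO ?_, hz'.2⟩
    have h5 := hz'.1
    rw [Metric.mem_closedBall] at h5
    rw [Metric.mem_ball]
    linarith
  · intro hx
    have h5 := (h1 hx).1.2.1
    rw [Metric.mem_closedBall, dist_comm] at h5
    linarith
  · intro z hz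
    exact hLW z (h1 hz).2
  · intro z hz
    exact (h1 hz).1.1

/-- The core: a closed `F_σδ` piece of infinite dimension of a countable-dimensional space without
closed subspaces of dimension `n`. -/
theorem core {n : ℕ} (hgap1 : ∀ A : Set X, IsClosed A → IndLT (n + 1) A → IndLT n A)
    (W : ℕ → Set X) (hW : ∀ i, ZD (W i)) (hcov : ∀ x, ∃ i, x ∈ W i) {K : Set X}
    (hK : IsClosed K) (hKb : ¬ IndLT n K) {Y : Type} [MetricSpace Y] (e : K → Y)
    (he : IsEmbedding e) (C : ℕ → ℕ → Set Y) (hC : ∀ m k, IsClosed (C m k))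
    (hr : range e = ⋂ m, ⋃ k, C m k) :
    ∃ D : Set Y, IsClosed D ∧ D.Countable ∧ D.Nonempty ∧ ∀ y ∈ D, y ∈ closure (D \ {y}) := by
  have hgap := gap_all hgap1
  refine exists_rat (fun m S => ∃ Z : Set X, IsClosed Z ∧ Z ⊆ K ∧ (∀ k, ¬ IndLT k Z) ∧
    (∀ O : Set X, IsOpen O → (O ∩ Z).Nonempty → ∀ k, ¬ IndLT k (O ∩ Z)) ∧
    (∀ i < m, ∀ x ∈ Z, x ∉ W i) ∧ (∀ i < m, ∃ k, e '' (Subtype.val ⁻¹' Z) ⊆ C i k) ∧
    S = e '' (Subtype.val ⁻¹' Z)) ?_ ?_ ?_ ?_
  · -- the root
    obtain ⟨Z, h1, h2, h3, h4⟩ := exists_kernel (n := n) hK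
      (fun k hk => hKb (hgap k K hK hk)) hgap
    exact ⟨_, Z, h2, h1, h3, h4, fun i hi => absurd hi (Nat.not_lt_zero i),
      fun i hi => absurd hi (Nat.not_lt_zero i), rfl⟩
  · -- not empty
    rintro m S ⟨Z, h1, h2, h3, -, -, -, rfl⟩
    have hne : Z.Nonempty := by
      by_contra h
      rw [not_nonempty_iff_eq_empty] at h
      exact h3 0 h
    obtain ⟨x, hx⟩ := hne
    exact ⟨e ⟨x, h2 hx⟩, ⟨x, h2 hx⟩, hx, rfl⟩
  · -- the step
    rintro m S ⟨Z, h1, h2, h3, h4, h5, h6, rfl⟩ _ ⟨p, hp, rfl⟩ ε hε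
    obtain ⟨O, hO, hOO⟩ := isOpen_induced_iff.1
      ((Metric.isOpen_ball (x := e p) (ε := ε)).preimage he.continuous)
    have hpO : p.1 ∈ O := by
      have : p ∈ Subtype.val ⁻¹' O := by
        rw [hOO]
        exact Metric.mem_ball_self hε
      exact this
    obtain ⟨Z', g1, g2, g3, g4, g5, g6, k, g7⟩ := exists_smaller hgap1 h1 h4 (hW m) hO hpO hp
      (fun k => Subtype.val '' (e ⁻¹' (C m k)))
      (fun k => hK.isClosedEmbedding_subtypeVal.isClosedMap _ ((hC m k).preimage he.continuous))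
      (by
        intro x hx
        have hex : e ⟨x, h2 hx⟩ ∈ ⋂ m, ⋃ k, C m k := by
          rw [← hr]
          exact mem_range_self _
        obtain ⟨k, hk⟩ := mem_iUnion.1 (mem_iInter.1 hex m)
        exact mem_iUnion.2 ⟨k, ⟨x, h2 hx⟩, hk, rfl⟩)
    have g8 : e '' (Subtype.val ⁻¹' Z') ⊆ e '' (Subtype.val ⁻¹' Z) :=
      image_mono (preimage_mono fun z hz => (g2 hz).2)
    refine ⟨e '' (Subtype.val ⁻¹' Z'), g8, ?_, ?_, Z', g1, fun z hz => h2 (g2 hz).2, g4, g5, ?_,
      ?_, rfl⟩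
    · rintro _ ⟨q, hq, rfl⟩
      have : q ∈ Subtype.val ⁻¹' O := (g2 hq).1
      rw [hOO] at this
      exact this
    · rintro ⟨q, hq, hqp⟩
      rw [he.injective hqp] at hq
      exact g3 hq
    · intro i hi x hx
      rcases Nat.lt_succ_iff_lt_or_eq.1 hi with hi | rfl
      · exact h5 i hi x (g2 hx).2
      · exact g6 x hx
    · intro i hi
      rcases Nat.lt_succ_iff_lt_or_eq.1 hi with hi | rfl
      · obtain ⟨j, hj⟩ := h6 i hi
        exact ⟨j, g8.trans hj⟩
      · refine ⟨k, ?_⟩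
        rintro _ ⟨q, hq, rfl⟩
        obtain ⟨q', hq', hqq⟩ := g7 hq
        rw [← Subtype.ext hqq]
        exact hq'
  · -- no branch
    intro S hS y
    by_contra hcon
    push Not at hcon
    choose Z h1 h2 h3 h4 h5 h6 h7 using hS
    have hyr : y ∈ range e := by
      rw [hr]
      refine mem_iInter.2 fun m => ?_
      obtain ⟨k, hk⟩ := h6 (m + 1) m (Nat.lt_succ_self m)
      refine mem_iUnion.2 ⟨k, ?_⟩
      have hy := hcon (m + 1)
      rw [h7] at hy
      exact (hC m k).closure_subset (closure_mono hk hy)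
    obtain ⟨q, rfl⟩ := hyr
    have hq : ∀ m, q.1 ∈ Z m := by
      intro m
      have hy := hcon m
      rw [h7] at hy
      have hq' : q ∈ closure (Subtype.val ⁻¹' (Z m) : Set K) := by
        rw [he.isInducing.closure_eq_preimage_closure_image]
        exact hy
      rw [((h1 m).preimage continuous_subtype_val).closure_eq] at hq'
      exact hq'
    obtain ⟨i, hi⟩ := hcov q.1
    exact h5 (i + 1) i (Nat.lt_succ_self i) q.1 (hq (i + 1)) hi

/-- A `σ`-locally finite closed cover of a big space has a big member. -/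
theorem exists_big_lf {n : ℕ} (hb : ¬ IndLT n (univ : Set X)) {ι : Type} (F : ℕ → ι → Set X)
    (hF : ∀ i s, IsClosed (F i s)) (hlf : ∀ i, LocallyFinite (F i))
    (hcov : ∀ x, ∃ i s, x ∈ F i s) : ∃ i s, ¬ IndLT n (F i s) := by
  by_contra hcon
  push Not at hcon
  apply hb
  rw [indLT_iff_dd]
  refine dd_nat n univ (fun i => ⋃ s, F i s) (fun i => ⟨⋃ s, F i s,
    (hlf i).isClosed_iUnion (hF i), (inter_univ _).symm⟩) ?_ (fun i => ?_)
  · intro x _
    obtain ⟨i, s, hs⟩ := hcov x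
    exact ⟨i, mem_iUnion.2 ⟨s, hs⟩⟩
  · exact dd_lf n _ (F i) (hlf i) (fun s => ⟨F i s, hF i s,
      (inter_eq_left.2 (subset_iUnion (F i) s)).symm⟩) (fun x hx => mem_iUnion.1 hx)
      (fun s => (indLT_iff_dd _ _).1 (hcon i s))

/-- The theorem on countable-dimensional spaces with a `σ`-locally finite closed cover by `F_σδ`
subsets of metric spaces without closed copies of the rationals. -/
theorem main_rat {ι : Type} (F : ℕ → ι → Set X) (B : ℕ → Set X) (hF : ∀ i s, IsClosed (F i s))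
    (hlf : ∀ i, LocallyFinite (F i)) (hFcov : ∀ x, ∃ i s, x ∈ F i s)
    (hFc : ∀ i s, (∃ k, IndLT k (F i s)) ∨ RelFsd (F i s)) (hBcov : ∀ x, ∃ i, x ∈ B i)
    (hB : ∀ i, ∃ k, IndLT k (B i)) (hinf : ∀ k, ¬ IndLT k (univ : Set X)) (n : ℕ) :
    ∃ A : Set X, IsClosed A ∧ IndLT (n + 1) A ∧ ¬ IndLT n A := by
  by_contra hcon
  push Not at hcon
  obtain ⟨W, hW, hcov⟩ := exists_zd B hB hBcov
  obtain ⟨i, s, hi⟩ := exists_big_lf (hinf n) F hF hlf hFcov
  rcases hFc i s with ⟨k, hk⟩ | ⟨Y, mY, e, C, hY, he, hC, hr⟩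
  · exact hi (gap_all hcon k (F i s) (hF i s) hk)
  · obtain ⟨D, h1, h2, h3, h4⟩ := core hcon W hW hcov (hF i s) hi e he C hC hr
    obtain ⟨y, hy, hy'⟩ := hY D h1 h2 h3
    exact hy' (h4 y hy)

end step

end GM
end Pool.Agent.Lib.MP_10cfb2_gt

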